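import Pool.Agent.Lib.MP_d48457_nt.N21.Check

set_option autoImplicit false

namespace Pool.Agent.Lib.MP_d48457_nt.N21

open Finset intervalIntegral

theorem exp_le_Eq3 (i : ℕ) {x : ℝ} (hx : (i:ℝ) / 100 ≤ x) : Real.exp (-(3 * x)) ≤ Eq3 i := by
  have h0 : Real.exp (-((3 / 100 : ℚ) : ℝ)) ≤ ((9704455336 / 10000000000 : ℚ) : ℝ) :=
    exp_neg_le_of 4 (by norm_num) (by decide +kernel)
  have h1 : Real.exp (-(3 * x)) ≤ Real.exp (-((3 / 100 : ℚ) : ℝ)) ^ i := by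
    rw [← Real.exp_nat_mul]
    apply Real.exp_le_exp.2
    push_cast; linarith
  refine h1.trans ?_
  unfold Eq3
  rw [Rat.cast_pow]
  exact pow_le_pow_left₀ (Real.exp_pos _).le h0 i

theorem Eq3_anti {i k : ℕ} (h : i ≤ k) : (Eq3 k : ℝ) ≤ Eq3 i := by
  unfold Eq3
  rw [Rat.cast_pow, Rat.cast_pow]
  exact pow_le_pow_of_le_one (by norm_num) (by norm_num) h

theorem Eq3_nonneg (i : ℕ) : (0:ℝ) ≤ Eq3 i := by
  unfold Eq3; rw [Rat.cast_pow]; positivity

theorem cluster_le (i : ℕ) :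
    (∫ t in (0:ℝ)..(4 / 25), fcl (4 / 25) (i / 100) t * Real.exp (i / 100 * t))
        + fcl (4 / 25) (i / 100) 0 / 8 + 2 / 10 ^ 6 ≤ (4 / 25) ^ 2 * (Ccl i : ℝ) := by
  have h1 := fcl_int_le (K := 4 / 25) (l := i / 100) (by norm_num) (by positivity)
  have h2 := fcl_zero_le (K := 4 / 25) (l := i / 100) (by norm_num) (by positivity)
  unfold Ccl
  push_cast
  nlinarith

theorem G0_le_cC (i : ℕ) (z : ℂ) (hz : (i:ℝ) / 100 ≤ z.re) :
    ‖G0 (4 / 25) z‖ ^ 2 ≤ (4 / 25) ^ 2 * (cC i : ℝ) := by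
  have h1 := (norm_G0_le (K := 4 / 25) (by norm_num) z hz).trans
    (int_exp_le (c := i / 100) (r := 4 / 25) (by positivity) (by norm_num))
  refine (pow_le_pow_left₀ (norm_nonneg _) h1 2).trans (le_of_eq ?_)
  unfold cC
  push_cast
  ring

/-- the row weight of a zero -/
noncomputable def sig (θ a P l : ℝ) : ℝ := max 0 (Ftri a (max 0 (l - θ)) - P)

theorem sig_nonneg (θ a P l : ℝ) : 0 ≤ sig θ a P l := le_max_left _ _

theorem sq_le_sig (θ a P : ℚ) (ha : 0 < a) (i : ℕ) {l : ℝ} (hl : l ≤ ((i:ℝ) + 1) / 100) :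
    (sq θ a P i : ℝ) ≤ sig θ a P l := by
  have ha' : (0:ℝ) < a := by exact_mod_cast ha
  unfold sq sig
  rw [Rat.cast_max]
  apply max_le_max (by simp)
  have h1 : Ftri a (max 0 (((i:ℝ) + 1) / 100 - θ)) ≤ Ftri a (max 0 (l - θ)) :=
    Ftri_anti ha' (max_le_max le_rfl (by linarith))
  have h2 := Flow_le (c := max 0 (((i:ℝ) + 1) / 100 - θ)) ha' (le_max_left _ _)
  have h3 : ((Fq a (max 0 ((i + 1) / 100 - θ)) : ℚ) : ℝ) = Flow a (max 0 (((i:ℝ) + 1) / 100 - θ)) := by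
    unfold Fq Flow; push_cast; rfl
  rw [Rat.cast_sub, h3]
  linarith

theorem mq_le (i : ℕ) {l : ℝ} (hl : l ≤ ((i:ℝ) + 1) / 100) : (mq i : ℝ) ≤ 1 / Dm l := by
  unfold mq
  split_ifs with hi
  · have := Dm_pos l
    simp only [Rat.cast_zero]; positivity
  · obtain ⟨n, rfl⟩ : ∃ n, i = n + 119 := ⟨i - 119, by omega⟩
    have hn : (31:ℝ) ≤ n := by exact_mod_cast (by omega : 31 ≤ n)
    simp only [Nat.add_sub_cancel]
    have e : 2 * ((((n + 119 : ℕ):ℝ) + 1) / 100) - 2.4 = n / 50 := by push_cast; ring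
    have h1 := Dm_mono hl
    rw [Dm_closed (l := (((n + 119 : ℕ):ℝ) + 1) / 100) (by rw [e]; positivity), e] at h1
    have hx : Real.exp ((15204 / 1000000 : ℚ) : ℝ) ≤ ((10153201689 / 10000000000 : ℚ) : ℝ) :=
      exp_le_of 4 (by norm_num) (by norm_num) (by decide +kernel)
    have hu : ((10068654599 / 10000000000 : ℚ) : ℝ) ≤ Real.exp ((6842 / 1000000 : ℚ) : ℝ) :=
      le_exp_of 4 (by norm_num) (by norm_num) (by decide +kernel)
    have hx' : Real.exp (n / 50 * 0.7602) ≤ ((10153201689 / 10000000000 : ℚ) : ℝ) ^ n := by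
      refine le_trans (le_of_eq ?_) (pow_le_pow_left₀ (Real.exp_pos _).le hx n)
      rw [← Real.exp_nat_mul]; congr 1; push_cast; ring
    have hu' : ((10068654599 / 10000000000 : ℚ) : ℝ) ^ n ≤ Real.exp (n / 50 * 0.3421) := by
      refine le_trans (pow_le_pow_left₀ (by norm_num) hu n) (le_of_eq ?_)
      rw [← Real.exp_nat_mul]; congr 1; push_cast; ring
    have h2 : Dm l ≤ (((10153201689 / 10000000000 : ℚ) : ℝ) ^ n
        - ((10068654599 / 10000000000 : ℚ) : ℝ) ^ n) / (n / 50) :=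
      h1.trans (div_le_div_of_nonneg_right (by linarith) (by positivity))
    have h3 := one_div_le_one_div_of_le (Dm_pos l) h2
    rw [one_div_div] at h3
    refine le_trans (le_of_eq ?_) h3
    simp only [Rat.cast_div, Rat.cast_sub, Rat.cast_pow, Rat.cast_natCast, Rat.cast_ofNat]

/-- coverage of a first zero by the five inequalities -/
noncomputable def covR (W1 W2 l : ℝ) : ℝ :=
  W1 * sig 0.35 1.28 0.37808 l + W2 * sig 0.25 1.12 0.29247 l + 0.033 * sig 1.2 0.82 0.26896 l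
    + 0.00625 * sig 2.85 0.62 0.28242 l + 0.000439 * (1 / Dm l)

theorem s1_le (i : ℕ) {l : ℝ} (hl : l ≤ ((i:ℝ) + 1) / 100) : (s1 i : ℝ) ≤ sig 0.35 1.28 0.37808 l := by
  have := sq_le_sig (35 / 100) (128 / 100) (37808 / 100000) (by norm_num) i hl
  unfold s1; convert this using 2 <;> norm_num

theorem s2_le (i : ℕ) {l : ℝ} (hl : l ≤ ((i:ℝ) + 1) / 100) : (s2 i : ℝ) ≤ sig 0.25 1.12 0.29247 l := by
  have := sq_le_sig (25 / 100) (112 / 100) (29247 / 100000) (by norm_num) i hl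
  unfold s2; convert this using 2 <;> norm_num

theorem s3_le (i : ℕ) {l : ℝ} (hl : l ≤ ((i:ℝ) + 1) / 100) : (s3 i : ℝ) ≤ sig 1.2 0.82 0.26896 l := by
  have := sq_le_sig (120 / 100) (82 / 100) (26896 / 100000) (by norm_num) i hl
  unfold s3; convert this using 2 <;> norm_num

theorem s4_le (i : ℕ) {l : ℝ} (hl : l ≤ ((i:ℝ) + 1) / 100) : (s4 i : ℝ) ≤ sig 2.85 0.62 0.28242 l := by
  have := sq_le_sig (285 / 100) (62 / 100) (28242 / 100000) (by norm_num) i hl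
  unfold s4; convert this using 2 <;> norm_num

theorem cov_le (W1 W2 : ℚ) (h1 : 0 ≤ W1) (h2 : 0 ≤ W2) (i : ℕ) {l : ℝ} (hl : l ≤ ((i:ℝ) + 1) / 100) :
    (cov W1 W2 i : ℝ) ≤ covR W1 W2 l := by
  have h1' : (0:ℝ) ≤ W1 := by exact_mod_cast h1
  have h2' : (0:ℝ) ≤ W2 := by exact_mod_cast h2
  have a1 := mul_le_mul_of_nonneg_left (s1_le i hl) h1'
  have a2 := mul_le_mul_of_nonneg_left (s2_le i hl) h2'
  have a3 := s3_le i hl
  have a4 := s4_le i hl
  have a5 := mq_le i hl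
  unfold cov covR
  push_cast
  linarith

theorem floor_cell {l : ℝ} (hl : 0 ≤ l) :
    ((⌊100 * l⌋₊ : ℕ) : ℝ) / 100 ≤ l ∧ l ≤ (((⌊100 * l⌋₊ : ℕ) : ℝ) + 1) / 100 := by
  have h1 := Nat.floor_le (a := 100 * l) (by positivity)
  have h2 := Nat.lt_floor_add_one (100 * l)
  constructor <;> linarith

/-- tail of the single-zero bound -/
theorem tail_le {l m : ℝ} (hm : 3.6 ≤ m) (h : m ≤ l) :
    Real.exp (-(3 * l)) * (Ccl 300 : ℝ) ≤ 0.0609 * Real.exp (-(1.4796 * m)) * (1 / Dm l) := by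
  have hk : (4.8:ℝ) ≤ 2 * l - 2.4 := by linarith
  have hD : Dm l ≤ Real.exp ((2 * l - 2.4) * 0.7602) / 4.8 := by
    rw [Dm_closed (by linarith)]
    have := Real.exp_pos ((2 * l - 2.4) * 0.3421)
    apply div_le_div₀ (Real.exp_pos _).le (by linarith) (by norm_num) hk
  have hC : (Ccl 300 : ℝ) ≤ 1.8095 := by unfold Ccl; norm_num
  have he : Real.exp (-((182448 / 100000 : ℚ) : ℝ)) ≤ ((16131 / 100000 : ℚ) : ℝ) :=
    exp_neg_le_of 8 (by norm_num) (by decide +kernel)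
  push_cast at he
  have h1 : Real.exp (-(3 * l)) * Real.exp ((2 * l - 2.4) * 0.7602) ≤
      Real.exp (-(182448 / 100000)) * Real.exp (-(1.4796 * m)) := by
    rw [← Real.exp_add, ← Real.exp_add]
    apply Real.exp_le_exp.2; linarith
  have hp := Dm_pos l
  rw [mul_one_div, le_div_iff₀ hp]
  have e1 := Real.exp_pos (-(3 * l))
  have e2 := Real.exp_pos (-(1.4796 * m))
  have e3 := Real.exp_pos ((2 * l - 2.4) * 0.7602)
  calc Real.exp (-(3 * l)) * (Ccl 300 : ℝ) * Dm l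
      ≤ Real.exp (-(3 * l)) * 1.8095 * (Real.exp ((2 * l - 2.4) * 0.7602) / 4.8) := by gcongr
    _ = 1.8095 / 4.8 * (Real.exp (-(3 * l)) * Real.exp ((2 * l - 2.4) * 0.7602)) := by ring
    _ ≤ 1.8095 / 4.8 * (16131 / 100000 * Real.exp (-(1.4796 * m))) := by
        apply mul_le_mul_of_nonneg_left _ (by norm_num)
        exact h1.trans (mul_le_mul_of_nonneg_right he e2.le)
    _ ≤ _ := by nlinarith

/-- one-dimensional pointwise inequality -/
theorem pw1 (W1 W2 : ℚ) (h1 : 0 ≤ W1) (h2 : 0 ≤ W2) (n0 : ℕ) (hn0 : n0 ≤ 360)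
    (hs : ((List.range (360 - n0)).all fun n => chk1 W1 W2 (n0 + n)) = true) {l : ℝ}
    (hl : (n0:ℝ) / 100 ≤ l) :
    Real.exp (-(3 * l)) * (Ccl (min (⌊100 * l⌋₊ - 1) 300) : ℝ) ≤ covR W1 W2 l := by
  have hl0 : 0 ≤ l := le_trans (by positivity) hl
  have h1' : (0:ℝ) ≤ W1 := by exact_mod_cast h1
  have h2' : (0:ℝ) ≤ W2 := by exact_mod_cast h2
  obtain ⟨c1, c2⟩ := floor_cell hl0
  have hi : n0 ≤ ⌊100 * l⌋₊ := Nat.le_floor (by linarith)
  by_cases hb : ⌊100 * l⌋₊ < 360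
  · rw [List.all_eq_true] at hs
    have := hs (⌊100 * l⌋₊ - n0) (List.mem_range.2 (by omega))
    rw [Nat.add_sub_cancel' hi] at this
    have h3 : ((Eq3 ⌊100 * l⌋₊ * Ccl (min (⌊100 * l⌋₊ - 1) 300) : ℚ) : ℝ) ≤ (cov W1 W2 ⌊100 * l⌋₊ : ℚ) := by
      exact_mod_cast of_decide_eq_true this
    rw [Rat.cast_mul] at h3
    refine le_trans ?_ (h3.trans (cov_le W1 W2 h1 h2 _ c2))
    apply mul_le_mul_of_nonneg_right (exp_le_Eq3 _ c1)
    have := cluster_le (min (⌊100 * l⌋₊ - 1) 300)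
    have h4 : ∀ y : ℝ, 0 ≤ 1 - y / 3 + y ^ 2 / 12 + 25 / 16 * (1 - y / 2 + y ^ 2 / 6) + 1 / 10000 := by
      intro y; nlinarith [sq_nonneg (y - 2)]
    unfold Ccl; push_cast; exact h4 _
  · have h3 : min (⌊100 * l⌋₊ - 1) 300 = 300 := by omega
    have h4 : (360:ℝ) ≤ ⌊100 * l⌋₊ := by exact_mod_cast (by omega : 360 ≤ ⌊100 * l⌋₊)
    rw [h3]
    have h5 := tail_le (l := l) (m := 3.6) le_rfl (by linarith)
    have he : Real.exp (-((532656 / 100000 : ℚ) : ℝ)) ≤ ((5 / 1000 : ℚ) : ℝ) :=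
      exp_neg_le_of 12 (by norm_num) (by decide +kernel)
    push_cast at he
    have e : -((1.4796:ℝ) * 3.6) = -(532656 / 100000) := by norm_num
    rw [e] at h5
    have hp : 0 ≤ 1 / Dm l := (one_div_pos.2 (Dm_pos l)).le
    unfold covR
    have := mul_nonneg h1' (sig_nonneg 0.35 1.28 0.37808 l)
    have := mul_nonneg h2' (sig_nonneg 0.25 1.12 0.29247 l)
    have := sig_nonneg 1.2 0.82 0.26896 l
    have := sig_nonneg 2.85 0.62 0.28242 l
    nlinarith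

/-- two-dimensional pointwise inequality -/
theorem pw2 {i k : ℕ} (hi : 47 ≤ i) (hi' : i < 87) (hik : i ≤ k) (hk : k ≤ 105) {l l' : ℝ}
    (hl : l ≤ ((i:ℝ) + 1) / 100) (hl' : k < 105 → l' ≤ ((k:ℝ) + 1) / 100) :
    (Eq3 i : ℝ) * cC i + Eq3 k * (Ccl (i - 1) - cC i) ≤ covR 1.147 0.136 l
      + (if k < 105 then 1.147 * sig 0.35 1.28 0.37808 l' else 0)
      + (if k < 69 then 0.136 * sig 0.25 1.12 0.29247 l' else 0) := by
  have hs := sweep2
  rw [List.all_eq_true] at hs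
  have h1 := hs (i - 47) (List.mem_range.2 (by omega))
  rw [List.all_eq_true] at h1
  have h2 := h1 (k - i) (List.mem_range.2 (by omega))
  rw [Nat.add_sub_cancel' hi, Nat.add_sub_cancel' hik] at h2
  have h3 := (Rat.cast_le (K := ℝ)).2 (of_decide_eq_true h2)
  have h4 := cov_le (1147 / 1000) (136 / 1000) (by norm_num) (by norm_num) i hl
  have e : covR ((1147 / 1000 : ℚ) : ℝ) ((136 / 1000 : ℚ) : ℝ) l = covR 1.147 0.136 l := by
    congr 1 <;> norm_num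
  rw [e] at h4
  by_cases a : k < 105
  · have b1 := s1_le k (hl' a)
    have b2 := s2_le k (hl' a)
    by_cases b : k < 69
    · simp only [a, b, if_true] at h3 ⊢
      push_cast at h3 h4
      linarith
    · simp only [a, b, if_true, if_false] at h3 ⊢
      push_cast at h3 h4
      linarith
  · have b : ¬ k < 69 := by omega
    simp only [a, b, if_false] at h3 ⊢
    push_cast at h3 h4
    linarith

end Pool.Agent.Lib.MP_d48457_nt.N21
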