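import Pool.Agent.Lib.MP_d48457_nt.N21.Exp

set_option autoImplicit false

namespace Pool.Agent.Lib.MP_d48457_nt.N21

def Eq3 (i : ℕ) : ℚ := (9704455336 / 10000000000) ^ i

def Ccl (i : ℕ) : ℚ :=
  1 - (8 * i / 2500) / 3 + (8 * i / 2500) ^ 2 / 12
    + 25 / 16 * (1 - (8 * i / 2500) / 2 + (8 * i / 2500) ^ 2 / 6) + 1 / 10000

def cC (i : ℕ) : ℚ := (1 - (4 * i / 2500) / 2 + (4 * i / 2500) ^ 2 / 6) ^ 2

def Fq (a c : ℚ) : ℚ :=
  a * (1 / 2 - (c * a) / 6 + (c * a) ^ 2 / 24 - (c * a) ^ 3 / 120 + (c * a) ^ 4 / 720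
    - (c * a) ^ 5 / 5040 + (c * a) ^ 6 / 40320 - (c * a) ^ 7 / 362880)

def sq (θ a P : ℚ) (i : ℕ) : ℚ := max 0 (Fq a (max 0 ((i + 1) / 100 - θ)) - P)

def s1 (i : ℕ) : ℚ := sq (35 / 100) (128 / 100) (37808 / 100000) i
def s2 (i : ℕ) : ℚ := sq (25 / 100) (112 / 100) (29247 / 100000) i
def s3 (i : ℕ) : ℚ := sq (120 / 100) (82 / 100) (26896 / 100000) i
def s4 (i : ℕ) : ℚ := sq (285 / 100) (62 / 100) (28242 / 100000) i

def mq (i : ℕ) : ℚ :=
  if i < 150 then 0 else ((i - 119 : ℕ) / 50) /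
    ((10153201689 / 10000000000) ^ (i - 119) - (10068654599 / 10000000000) ^ (i - 119))

def cov (W1 W2 : ℚ) (i : ℕ) : ℚ :=
  W1 * s1 i + W2 * s2 i + 33 / 1000 * s3 i + 625 / 100000 * s4 i + 439 / 1000000 * mq i

def chk1 (W1 W2 : ℚ) (i : ℕ) : Bool := decide (Eq3 i * Ccl (min (i - 1) 300) ≤ cov W1 W2 i)

def chk2 (i k : ℕ) : Bool :=
  decide (Eq3 i * cC i + Eq3 k * (Ccl (i - 1) - cC i) ≤ cov (1147 / 1000) (136 / 1000) i
    + (if k < 105 then 1147 / 1000 * s1 k else 0) + (if k < 69 then 136 / 1000 * s2 k else 0))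

theorem sweepA : ((List.range 273).all fun n => chk1 (1147 / 1000) (136 / 1000) (87 + n)) = true := by
  decide +kernel

theorem sweepB1 : ((List.range 241).all fun n => chk1 0 (507 / 1000) (119 + n)) = true := by
  decide +kernel

theorem sweepB2 : ((List.range 150).all fun n => chk1 0 (71 / 1000) (210 + n)) = true := by
  decide +kernel

theorem sweep2 : ((List.range 40).all fun n => (List.range (59 - n)).all fun m =>
    chk2 (47 + n) (47 + n + m)) = true := by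
  decide +kernel

end Pool.Agent.Lib.MP_d48457_nt.N21
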