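import Pool.Agent.Lib.MP_d48457_nt.N21.Exp

set_option autoImplicit false

namespace Pool.Agent.Lib.MP_d48457_nt.N21

open Finset intervalIntegral

theorem int_exp_poly (κ a p0 p1 p2 p3 p4 p5 q0 q1 q2 q3 q4 q5 : ℝ) (h5 : κ * q5 = p5)
    (h4 : κ * q4 + 5 * q5 = p4) (h3 : κ * q3 + 4 * q4 = p3) (h2 : κ * q2 + 3 * q3 = p2)
    (h1 : κ * q1 + 2 * q2 = p1) (h0 : κ * q0 + q1 = p0) :
    (∫ t in (0:ℝ)..a, Real.exp (κ * t) * (p0 + p1 * t + p2 * t ^ 2 + p3 * t ^ 3 + p4 * t ^ 4 + p5 * t ^ 5))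
      = Real.exp (κ * a) * (q0 + q1 * a + q2 * a ^ 2 + q3 * a ^ 3 + q4 * a ^ 4 + q5 * a ^ 5) - q0 := by
  have hW : ∀ t : ℝ, HasDerivAt (fun t : ℝ => Real.exp (κ * t) *
      (q0 + q1 * t + q2 * t ^ 2 + q3 * t ^ 3 + q4 * t ^ 4 + q5 * t ^ 5))
      (Real.exp (κ * t) * (p0 + p1 * t + p2 * t ^ 2 + p3 * t ^ 3 + p4 * t ^ 4 + p5 * t ^ 5)) t := by
    intro t
    have q := fun (n : ℕ) (r : ℝ) => (hasDerivAt_pow n t).const_mul r
    refine ((((hasDerivAt_id' t).const_mul κ).exp).fun_mul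
      ((((((((hasDerivAt_id' t).const_mul q1).const_add q0).fun_add (q 2 q2)).fun_add (q 3 q3)).fun_add
        (q 4 q4)).fun_add (q 5 q5)))).congr_deriv ?_
    subst h5 h4 h3 h2 h1 h0
    push_cast; ring
  rw [integral_eq_sub_of_hasDerivAt (fun t _ => hW t)
    (Continuous.intervalIntegrable (by fun_prop) _ _)]
  simp

/-- polynomial majorant of `(1-t/a)^2/(1-t/b)` -/
noncomputable def Wp (a b t : ℝ) : ℝ :=
  (1 - t / a) ^ 2 * (1 + t / b + (t / b) ^ 2 + (t / b) ^ 3 / (1 - a / b))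

theorem Wp_ge {a b t : ℝ} (ha : 0 < a) (hab : a < b) (ht : 0 ≤ t) (hta : t ≤ a) :
    (1 - t / a) ^ 2 ≤ Wp a b t * (1 - t / b) := by
  have hb : 0 < b := ha.trans hab
  have h1 : a / b < 1 := (div_lt_one hb).2 hab
  have h2 : t / b ≤ a / b := by gcongr
  have h3 : 0 ≤ t / b := by positivity
  unfold Wp
  rw [mul_assoc]
  apply le_mul_of_one_le_right (sq_nonneg _)
  set w := t / b
  set r := a / b
  have h4 : w ^ 3 ≤ w ^ 3 / (1 - r) * (1 - w) := by
    rw [div_mul_eq_mul_div, le_div_iff₀ (by linarith)]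
    apply mul_le_mul_of_nonneg_left (by linarith) (by positivity)
  nlinarith

theorem I1_le : Ftri 1.28 (-(2 * 0.35)) ≤ 0.883 := by
  rw [Ftri_closed (by norm_num) (by norm_num)]
  have he : Real.exp ((896 / 1000 : ℚ) : ℝ) ≤ ((24498 / 10000 : ℚ) : ℝ) :=
    exp_le_of 6 (by norm_num) (by norm_num) (by decide +kernel)
  push_cast at he
  have e : -(-(2 * 0.35) * 1.28) = (896 / 1000 : ℝ) := by norm_num
  rw [e, div_le_iff₀ (by norm_num)]
  linarith

theorem I2_le : Ftri 1.12 (-(2 * 0.25)) ≤ 0.6811 := by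
  rw [Ftri_closed (by norm_num) (by norm_num)]
  have he : Real.exp ((56 / 100 : ℚ) : ℝ) ≤ ((17507 / 10000 : ℚ) : ℝ) :=
    exp_le_of 6 (by norm_num) (by norm_num) (by decide +kernel)
  push_cast at he
  have e : -(-(2 * 0.25) * 1.12) = (56 / 100 : ℝ) := by norm_num
  rw [e, div_le_iff₀ (by norm_num)]
  linarith

theorem I3_le : (∫ t in (0:ℝ)..0.82, Real.exp (2 * 1.2 * t) * Wp 0.82 1.6 t) ≤ 0.601 := by
  have h := int_exp_poly (2 * 1.2) 0.82 1 (-595/328) (38025/107584) (1001875/2097888) (-671875/1048944)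
    (390625/524472) (581222245/16313177088) (1243186975/1359431424) (-454140875/226571904)
    (195003125/113285952) (-68984375/75523968) (1953125/6293664) (by norm_num) (by norm_num)
    (by norm_num) (by norm_num) (by norm_num) (by norm_num)
  have e : ∀ t : ℝ, Wp 0.82 1.6 t = 1 + (-595/328) * t + (38025/107584) * t ^ 2
      + (1001875/2097888) * t ^ 3 + (-671875/1048944) * t ^ 4 + (390625/524472) * t ^ 5 := by
    intro t; unfold Wp; ring
  simp only [e]
  rw [h]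
  have he : Real.exp ((1968 / 1000 : ℚ) : ℝ) ≤ ((7157 / 1000 : ℚ) : ℝ) :=
    exp_le_of 8 (by norm_num) (by norm_num) (by decide +kernel)
  push_cast at he
  have e : (2 * 1.2 * 0.82 : ℝ) = 1968 / 1000 := by norm_num
  rw [e]
  norm_num
  linarith

theorem I4_le : (∫ t in (0:ℝ)..0.62, Real.exp (2 * 2.85 * t) * Wp 0.62 4.4 t) ≤ 0.702 := by
  have h := int_exp_poly (2 * 2.85) 0.62 1 (-2045/682) (893025/465124) (19264375/43954218)
    (1984375/21977109) (781250/21977109) (71908743089284960/251245586501341047)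
    (-2783057001887425/4407817307041071) (46428702892375/154660256387406)
    (25757365625/370000613367) (105781250/10200518163) (7812500/1252695213) (by norm_num) (by norm_num)
    (by norm_num) (by norm_num) (by norm_num) (by norm_num)
  have e : ∀ t : ℝ, Wp 0.62 4.4 t = 1 + (-2045/682) * t + (893025/465124) * t ^ 2
      + (19264375/43954218) * t ^ 3 + (1984375/21977109) * t ^ 4 + (781250/21977109) * t ^ 5 := by
    intro t; unfold Wp; ring
  simp only [e]
  rw [h]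
  have he : Real.exp ((3534 / 1000 : ℚ) : ℝ) ≤ ((34262 / 1000 : ℚ) : ℝ) :=
    exp_le_of 14 (by norm_num) (by norm_num) (by decide +kernel)
  push_cast at he
  have e : (2 * 2.85 * 0.62 : ℝ) = 3534 / 1000 := by norm_num
  rw [e]
  norm_num
  linarith

theorem Vm_le : (1 + 1 / 10000) * Vm ≤ 264.3 := by
  have hc : Continuous fun t : ℝ => Real.exp (2.4 * t) * min (t - 0.3421) 0.122 := by fun_prop
  have h1 : (∫ t in (0.3421:ℝ)..0.4641, Real.exp (2.4 * t) * min (t - 0.3421) 0.122)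
      ≤ ∫ t in (0.3421:ℝ)..0.4641, Real.exp (2.4 * t) * (t - 0.3421) :=
    integral_mono_on (by norm_num) (hc.intervalIntegrable _ _)
      (Continuous.intervalIntegrable (by fun_prop) _ _)
      (fun t _ => mul_le_mul_of_nonneg_left (min_le_left _ _) (Real.exp_pos _).le)
  have h2 : (∫ t in (0.4641:ℝ)..0.7602, Real.exp (2.4 * t) * min (t - 0.3421) 0.122)
      ≤ ∫ t in (0.4641:ℝ)..0.7602, Real.exp (2.4 * t) * 0.122 :=
    integral_mono_on (by norm_num) (hc.intervalIntegrable _ _)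
      (Continuous.intervalIntegrable (by fun_prop) _ _)
      (fun t _ => mul_le_mul_of_nonneg_left (min_le_right _ _) (Real.exp_pos _).le)
  have hW1 : ∀ t : ℝ, HasDerivAt (fun t : ℝ => Real.exp (2.4 * t) * ((t - 0.3421) / 2.4 - 1 / 2.4 ^ 2))
      (Real.exp (2.4 * t) * (t - 0.3421)) t := by
    intro t
    refine ((((hasDerivAt_id' t).const_mul 2.4).exp).fun_mul
      ((((hasDerivAt_id' t).sub_const 0.3421).div_const 2.4).sub_const (1 / 2.4 ^ 2))).congr_deriv ?_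
    ring
  have hW2 : ∀ t : ℝ, HasDerivAt (fun t : ℝ => Real.exp (2.4 * t) * (0.122 / 2.4))
      (Real.exp (2.4 * t) * 0.122) t := by
    intro t
    refine ((((hasDerivAt_id' t).const_mul 2.4).exp).mul_const (0.122 / 2.4)).congr_deriv ?_
    ring
  rw [integral_eq_sub_of_hasDerivAt (fun t _ => hW1 t)
    (Continuous.intervalIntegrable (by fun_prop) _ _)] at h1
  rw [integral_eq_sub_of_hasDerivAt (fun t _ => hW2 t)
    (Continuous.intervalIntegrable (by fun_prop) _ _)] at h2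
  unfold Vm
  rw [← integral_add_adjacent_intervals (b := 0.4641) (hc.intervalIntegrable _ _)
    (hc.intervalIntegrable _ _)]
  have a1 : Real.exp ((82104 / 100000 : ℚ) : ℝ) ≤ ((227287 / 100000 : ℚ) : ℝ) :=
    exp_le_of 8 (by norm_num) (by norm_num) (by decide +kernel)
  have a2 : ((304602 / 100000 : ℚ) : ℝ) ≤ Real.exp ((111384 / 100000 : ℚ) : ℝ) :=
    le_exp_of 8 (by norm_num) (by norm_num) (by decide +kernel)
  have a3 : Real.exp ((182448 / 100000 : ℚ) : ℝ) ≤ ((619958 / 100000 : ℚ) : ℝ) :=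
    exp_le_of 10 (by norm_num) (by norm_num) (by decide +kernel)
  push_cast at a1 a2 a3
  have e1 : (2.4 * 0.3421 : ℝ) = 82104 / 100000 := by norm_num
  have e2 : (2.4 * 0.4641 : ℝ) = 111384 / 100000 := by norm_num
  have e3 : (2.4 * 0.7602 : ℝ) = 182448 / 100000 := by norm_num
  rw [e1, e2] at h1
  rw [e2, e3] at h2
  rw [← mul_div_assoc, div_le_iff₀ (by norm_num)]
  norm_num at h1 h2 ⊢
  linarith

theorem pair1 {l l' : ℝ} (h : l ≤ 0.8701) (h' : l' ≤ 1.0501) :
    0.883 / (2 * 0.48) ≤ Real.exp (-((l - 0.35) * 1.28)) + Real.exp (-((l' - 0.35) * 1.28)) := by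
  have a1 : ((5138 / 10000 : ℚ) : ℝ) ≤ Real.exp (-((6658 / 10000 : ℚ) : ℝ)) :=
    le_exp_neg_of 6 (by norm_num) (by decide +kernel)
  have a2 : ((4081 / 10000 : ℚ) : ℝ) ≤ Real.exp (-((8962 / 10000 : ℚ) : ℝ)) :=
    le_exp_neg_of 6 (by norm_num) (by decide +kernel)
  push_cast at a1 a2
  have b1 : Real.exp (-(6658 / 10000)) ≤ Real.exp (-((l - 0.35) * 1.28)) :=
    Real.exp_le_exp.2 (by linarith)
  have b2 : Real.exp (-(8962 / 10000)) ≤ Real.exp (-((l' - 0.35) * 1.28)) :=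
    Real.exp_le_exp.2 (by linarith)
  have : (0.883 / (2 * 0.48) : ℝ) ≤ 0.921 := by norm_num
  linarith

theorem pair2 {l l' : ℝ} (h : l ≤ 0.6901) (h' : l' ≤ 0.6901) :
    0.6811 / (2 * 0.28) ≤ Real.exp (-((l - 0.25) * 1.12)) + Real.exp (-((l' - 0.25) * 1.12)) := by
  have a1 : ((6107 / 10000 : ℚ) : ℝ) ≤ Real.exp (-((4930 / 10000 : ℚ) : ℝ)) :=
    le_exp_neg_of 6 (by norm_num) (by decide +kernel)
  push_cast at a1
  have b1 : Real.exp (-(4930 / 10000)) ≤ Real.exp (-((l - 0.25) * 1.12)) :=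
    Real.exp_le_exp.2 (by linarith)
  have b2 : Real.exp (-(4930 / 10000)) ≤ Real.exp (-((l' - 0.25) * 1.12)) :=
    Real.exp_le_exp.2 (by linarith)
  have : (0.6811 / (2 * 0.28) : ℝ) ≤ 1.221 := by norm_num
  linarith

theorem poly_num : Ftri 1.4 (-0.47) ≤ 0.8826 := by
  rw [Ftri_closed (by norm_num) (by norm_num)]
  have he : Real.exp ((658 / 1000 : ℚ) : ℝ) ≤ ((193094 / 100000 : ℚ) : ℝ) :=
    exp_le_of 6 (by norm_num) (by norm_num) (by decide +kernel)
  push_cast at he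
  have e : -(-0.47 * 1.4) = (658 / 1000 : ℝ) := by norm_num
  rw [e, div_le_iff₀ (by norm_num)]
  linarith

theorem poly_exp {l : ℝ} (h : l ≤ 0.47) : Real.exp (l * 1.4) ≤ 1.94 := by
  have he : Real.exp ((658 / 1000 : ℚ) : ℝ) ≤ ((193094 / 100000 : ℚ) : ℝ) :=
    exp_le_of 6 (by norm_num) (by norm_num) (by decide +kernel)
  push_cast at he
  have := Real.exp_le_exp.2 (show l * 1.4 ≤ 658 / 1000 by linarith)
  linarith

/-- the Deuring-Heilbronn quantity -/
noncomputable def Del (l l1 : ℝ) : ℝ := Ftri 0.8 (-l) - Ftri 0.8 (l1 - l)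

theorem Del_eq (l l1 : ℝ) : Del l l1 =
    ∫ t in (0:ℝ)..0.8, (1 - t / 0.8) * Real.exp (l * t) * (1 - Real.exp (-(l1 * t))) := by
  unfold Del Ftri
  rw [← integral_sub (Continuous.intervalIntegrable (by fun_prop) _ _)
        (Continuous.intervalIntegrable (by fun_prop) _ _)]
  congr 1; ext t
  have : Real.exp (-((l1 - l) * t)) = Real.exp (l * t) * Real.exp (-(l1 * t)) := by
    rw [← Real.exp_add]; congr 1; ring
  rw [this, neg_mul, neg_neg]; ring

theorem Del_mono {l l' l1 l1' : ℝ} (h0 : 0 ≤ l1) (h : l ≤ l') (h1 : l1 ≤ l1') :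
    Del l l1 ≤ Del l' l1' := by
  rw [Del_eq, Del_eq]
  apply integral_mono_on (by norm_num) (Continuous.intervalIntegrable (by fun_prop) _ _)
        (Continuous.intervalIntegrable (by fun_prop) _ _)
  intro t ht
  have ht0 := ht.1
  have a1 : 0 ≤ 1 - t / 0.8 := by
    have := (div_le_one (by norm_num : (0:ℝ) < 0.8)).2 ht.2; linarith
  have a2 : Real.exp (l * t) ≤ Real.exp (l' * t) := Real.exp_le_exp.2 (by nlinarith)
  have a3 : Real.exp (-(l1' * t)) ≤ Real.exp (-(l1 * t)) := Real.exp_le_exp.2 (by nlinarith)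
  have a4 : Real.exp (-(l1 * t)) ≤ 1 := Real.exp_le_one_iff.2 (by nlinarith)
  apply mul_le_mul (mul_le_mul_of_nonneg_left a2 a1) (by linarith) (by linarith)
    (mul_nonneg a1 (Real.exp_pos _).le)

theorem Del_le {l l1 : ℝ} (hl : 0 < l) (h0 : 0 ≤ l1) : Del l l1 ≤ l1 * (Real.exp (0.8 * l) / l ^ 2) := by
  have h1 : Del l l1 ≤ l1 * 0.8 * Ftri 0.8 (-l) := by
    rw [Del_eq]
    unfold Ftri
    rw [← integral_const_mul]
    apply integral_mono_on (by norm_num) (Continuous.intervalIntegrable (by fun_prop) _ _)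
        (Continuous.intervalIntegrable (by fun_prop) _ _)
    intro t ht
    have a1 : 0 ≤ 1 - t / 0.8 := by
      have := (div_le_one (by norm_num : (0:ℝ) < 0.8)).2 ht.2; linarith
    have a2 : 1 - Real.exp (-(l1 * t)) ≤ l1 * 0.8 := by
      have := Real.add_one_le_exp (-(l1 * t))
      have := mul_le_mul_of_nonneg_left ht.2 h0
      linarith
    rw [neg_mul, neg_neg]
    have := mul_le_mul_of_nonneg_left a2 (mul_nonneg a1 (Real.exp_pos (l * t)).le)
    linarith
  refine h1.trans ?_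
  rw [Ftri_closed (by norm_num) (by linarith), mul_assoc]
  apply mul_le_mul_of_nonneg_left _ h0
  have e : -(-l * 0.8) = 0.8 * l := by ring
  rw [e, neg_sq, le_div_iff₀ (by positivity)]
  have : 0.8 * ((-l * 0.8 - 1 + Real.exp (0.8 * l)) / (l ^ 2 * 0.8)) * l ^ 2
      = -l * 0.8 - 1 + Real.exp (0.8 * l) := by field_simp
  rw [this]; linarith

theorem Del1 : 2 * Del 1.19 0.4701 < 0.1495 := by
  unfold Del
  rw [Ftri_closed (by norm_num) (by norm_num), Ftri_closed (by norm_num) (by norm_num)]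
  have a1 : Real.exp ((952 / 1000 : ℚ) : ℝ) ≤ ((259089 / 100000 : ℚ) : ℝ) :=
    exp_le_of 8 (by norm_num) (by norm_num) (by decide +kernel)
  have a2 : ((177876 / 100000 : ℚ) : ℝ) ≤ Real.exp ((57592 / 100000 : ℚ) : ℝ) :=
    le_exp_of 8 (by norm_num) (by norm_num) (by decide +kernel)
  push_cast at a1 a2
  have e1 : -(-1.19 * 0.8 : ℝ) = 952 / 1000 := by norm_num
  have e2 : -((0.4701 - 1.19) * 0.8 : ℝ) = 57592 / 100000 := by norm_num
  rw [e1, e2]
  norm_num
  linarith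

theorem Del2 : 2 * Del 2.1 0.3 < 0.1495 := by
  unfold Del
  rw [Ftri_closed (by norm_num) (by norm_num), Ftri_closed (by norm_num) (by norm_num)]
  have a1 : Real.exp ((168 / 100 : ℚ) : ℝ) ≤ ((53656 / 10000 : ℚ) : ℝ) :=
    exp_le_of 8 (by norm_num) (by norm_num) (by decide +kernel)
  have a2 : ((42206 / 10000 : ℚ) : ℝ) ≤ Real.exp ((144 / 100 : ℚ) : ℝ) :=
    le_exp_of 8 (by norm_num) (by norm_num) (by decide +kernel)
  push_cast at a1 a2
  have e1 : -(-2.1 * 0.8 : ℝ) = 168 / 100 := by norm_num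
  have e2 : -((0.3 - 2.1) * 0.8 : ℝ) = 144 / 100 := by norm_num
  rw [e1, e2]
  norm_num
  linarith

theorem Del3 : 2 * Del 3.6 0.14 < 0.1495 := by
  unfold Del
  rw [Ftri_closed (by norm_num) (by norm_num), Ftri_closed (by norm_num) (by norm_num)]
  have a1 : Real.exp ((288 / 100 : ℚ) : ℝ) ≤ ((178143 / 10000 : ℚ) : ℝ) :=
    exp_le_of 12 (by norm_num) (by norm_num) (by decide +kernel)
  have a2 : ((159267 / 10000 : ℚ) : ℝ) ≤ Real.exp ((2768 / 1000 : ℚ) : ℝ) :=
    le_exp_of 12 (by norm_num) (by norm_num) (by decide +kernel)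
  push_cast at a1 a2
  have e1 : -(-3.6 * 0.8 : ℝ) = 288 / 100 := by norm_num
  have e2 : -((0.14 - 3.6) * 0.8 : ℝ) = 2768 / 1000 := by norm_num
  rw [e1, e2]
  norm_num
  linarith

end Pool.Agent.Lib.MP_d48457_nt.N21
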