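import Pool.Agent.Lib.MP_d48457_nt.N21.Cells
import Pool.Agent.Lib.MP_d48457_nt.N21.Consts

set_option autoImplicit false

namespace Pool.Agent.Lib.MP_d48457_nt.N21

open Finset

variable {ι : Type*}

theorem floor_level {l : ℝ} (hl : 0.01 ≤ l) :
    ((min (⌊100 * l⌋₊ - 1) 300 : ℕ) : ℝ) / 100 + 1 / 100 ≤ l := by
  obtain ⟨c1, -⟩ := floor_cell (l := l) (by linarith)
  have h1 : 1 ≤ ⌊100 * l⌋₊ := Nat.le_floor (by push_cast; linarith)
  have h2 : ((min (⌊100 * l⌋₊ - 1) 300 : ℕ) : ℝ) ≤ ((⌊100 * l⌋₊ - 1 : ℕ) : ℝ) := by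
    exact_mod_cast min_le_left _ _
  rw [Nat.cast_sub h1] at h2
  push_cast at h2 ⊢
  linarith

theorem sum_covR (C : Finset ι) (lam : ι → ℝ) (W1 W2 : ℝ) :
    ∑ χ ∈ C, covR W1 W2 (lam χ) = W1 * ∑ χ ∈ C, sig 0.35 1.28 0.37808 (lam χ)
      + W2 * ∑ χ ∈ C, sig 0.25 1.12 0.29247 (lam χ) + 0.033 * ∑ χ ∈ C, sig 1.2 0.82 0.26896 (lam χ)
      + 0.00625 * ∑ χ ∈ C, sig 2.85 0.62 0.28242 (lam χ) + 0.000439 * ∑ χ ∈ C, 1 / Dm (lam χ) := by
  simp only [covR, sum_add_distrib, mul_sum]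

open Classical in
/-- the linear programme when no exceptional real zero exists -/
theorem coreA (C : Finset ι) (lam lam' cost : ι → ℝ) (h0 : ∀ χ ∈ C, 0.47 ≤ lam χ)
    (h1 : ∀ χ ∈ C, lam χ ≤ lam' χ)
    (hc1 : ∀ χ ∈ C, ∀ i : ℕ, i ≤ 300 → (i:ℝ) / 100 + 1 / 100 ≤ lam χ →
      cost χ ≤ Real.exp (-(3 * lam χ)) * Ccl i)
    (hc2 : ∀ χ ∈ C, ∀ i k : ℕ, 1 ≤ i → i ≤ 300 → i ≤ k → (i:ℝ) / 100 ≤ lam χ → (k:ℝ) / 100 ≤ lam' χ →
      cost χ ≤ Eq3 i * cC i + Eq3 k * (Ccl (i - 1) - cC i))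
    (r1 : ∑ χ ∈ C, sig 0.35 1.28 0.37808 (lam χ) + ∑ χ ∈ C.filter (fun χ => lam χ < 0.87 ∧ lam' χ < 1.05),
      sig 0.35 1.28 0.37808 (lam' χ) ≤ 0.5888)
    (r2 : ∑ χ ∈ C, sig 0.25 1.12 0.29247 (lam χ) + ∑ χ ∈ C.filter (fun χ => lam' χ < 0.69),
      sig 0.25 1.12 0.29247 (lam' χ) ≤ 0.6812)
    (r3 : ∑ χ ∈ C, sig 1.2 0.82 0.26896 (lam χ) ≤ 1.1449)
    (r4 : ∑ χ ∈ C, sig 2.85 0.62 0.28242 (lam χ) ≤ 3.6773)
    (hd : ∑ χ ∈ C, 1 / Dm (lam χ) ≤ 264.3) : ∑ χ ∈ C, cost χ ≤ 0.945 := by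
  have pw : ∀ χ ∈ C, cost χ ≤ covR 1.147 0.136 (lam χ)
      + 1.147 * (if lam χ < 0.87 ∧ lam' χ < 1.05 then sig 0.35 1.28 0.37808 (lam' χ) else 0)
      + 0.136 * (if lam' χ < 0.69 then sig 0.25 1.12 0.29247 (lam' χ) else 0) := by
    intro χ hχ
    have a0 := h0 χ hχ
    have a1 := h1 χ hχ
    have n1 := sig_nonneg 0.35 1.28 0.37808 (lam' χ)
    have n2 := sig_nonneg 0.25 1.12 0.29247 (lam' χ)
    by_cases hl : lam χ < 0.87
    · obtain ⟨c1, c2⟩ := floor_cell (l := lam χ) (by linarith)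
      obtain ⟨d1, d2⟩ := floor_cell (l := lam' χ) (by linarith)
      set i := ⌊100 * lam χ⌋₊ with hi
      set k0 := ⌊100 * lam' χ⌋₊ with hk
      have i1 : 47 ≤ i := Nat.le_floor (by push_cast; linarith)
      have i2 : i < 87 := (Nat.floor_lt (by linarith)).2 (by push_cast; linarith)
      have ik : i ≤ k0 := Nat.floor_le_floor (by linarith)
      have hk1 : ((min k0 105 : ℕ) : ℝ) ≤ k0 := by exact_mod_cast min_le_left _ _
      have b1 := hc2 χ hχ i (min k0 105) (by omega) (by omega) (by omega) c1 (by linarith)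
      have b2 := pw2 (i := i) (k := min k0 105) i1 i2 (by omega) (by omega) (l := lam χ) (l' := lam' χ) c2
        (fun h => by
          have : min k0 105 = k0 := by omega
          rw [this]; exact d2)
      refine b1.trans (b2.trans ?_)
      have e1 : (if min k0 105 < 105 then 1.147 * sig 0.35 1.28 0.37808 (lam' χ) else 0) ≤
          1.147 * (if lam χ < 0.87 ∧ lam' χ < 1.05 then sig 0.35 1.28 0.37808 (lam' χ) else 0) := by
        by_cases h : min k0 105 < 105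
        · have h' : k0 < 105 := by omega
          have : lam' χ < 1.05 := by
            have := (Nat.floor_lt (a := 100 * lam' χ) (by linarith)).1 h'
            push_cast at this; linarith
          simp [h, hl, this]
        · rw [if_neg h]; split_ifs <;> positivity
      have e2 : (if min k0 105 < 69 then 0.136 * sig 0.25 1.12 0.29247 (lam' χ) else 0) ≤
          0.136 * (if lam' χ < 0.69 then sig 0.25 1.12 0.29247 (lam' χ) else 0) := by
        by_cases h : min k0 105 < 69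
        · have h' : k0 < 69 := by omega
          have : lam' χ < 0.69 := by
            have := (Nat.floor_lt (a := 100 * lam' χ) (by linarith)).1 h'
            push_cast at this; linarith
          simp [h, this]
        · rw [if_neg h]; split_ifs <;> positivity
      linarith
    · have b1 := hc1 χ hχ _ (min_le_right _ _) (floor_level (l := lam χ) (by linarith))
      have b2 := pw1 (1147 / 1000) (136 / 1000) (by norm_num) (by norm_num) 87 (by norm_num) sweepA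
        (l := lam χ) (by push_cast; linarith)
      have e : covR ((1147 / 1000 : ℚ) : ℝ) ((136 / 1000 : ℚ) : ℝ) (lam χ) = covR 1.147 0.136 (lam χ) := by
        congr 1 <;> norm_num
      rw [e] at b2
      have e1 : 0 ≤ (if lam χ < 0.87 ∧ lam' χ < 1.05 then sig 0.35 1.28 0.37808 (lam' χ) else 0) := by
        split_ifs <;> positivity
      have e2 : 0 ≤ (if lam' χ < 0.69 then sig 0.25 1.12 0.29247 (lam' χ) else 0) := by
        split_ifs <;> positivity
      linarith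
  refine (sum_le_sum pw).trans ?_
  rw [sum_add_distrib, sum_add_distrib, sum_covR, ← mul_sum, ← mul_sum, ← sum_filter, ← sum_filter]
  linarith

theorem coreB_aux (C : Finset ι) (lam cost : ι → ℝ) (W2 : ℚ) (hW : 0 ≤ W2) (n0 : ℕ) (hn : 1 ≤ n0)
    (hn0 : n0 ≤ 360) (hs : ((List.range (360 - n0)).all fun n => chk1 0 W2 (n0 + n)) = true)
    (h0 : ∀ χ ∈ C, (n0:ℝ) / 100 ≤ lam χ)
    (hc1 : ∀ χ ∈ C, ∀ i : ℕ, i ≤ 300 → (i:ℝ) / 100 + 1 / 100 ≤ lam χ →
      cost χ ≤ Real.exp (-(3 * lam χ)) * Ccl i)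
    (r2 : ∑ χ ∈ C, sig 0.25 1.12 0.29247 (lam χ) ≤ 0.6812)
    (r3 : ∑ χ ∈ C, sig 1.2 0.82 0.26896 (lam χ) ≤ 1.1449)
    (r4 : ∑ χ ∈ C, sig 2.85 0.62 0.28242 (lam χ) ≤ 3.6773)
    (hd : ∑ χ ∈ C, 1 / Dm (lam χ) ≤ 264.3) : ∑ χ ∈ C, cost χ ≤ W2 * 0.6812 + 0.1768 := by
  have hn' : (1:ℝ) ≤ n0 := by exact_mod_cast hn
  have hW' : (0:ℝ) ≤ W2 := by exact_mod_cast hW
  have pw : ∀ χ ∈ C, cost χ ≤ covR 0 W2 (lam χ) := by
    intro χ hχ
    have a0 := h0 χ hχ
    have b1 := hc1 χ hχ _ (min_le_right _ _) (floor_level (l := lam χ) (by linarith))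
    have b2 := pw1 0 W2 le_rfl hW n0 hn0 hs a0
    rw [Rat.cast_zero] at b2
    linarith
  refine (sum_le_sum pw).trans ?_
  rw [sum_covR]
  have := mul_le_mul_of_nonneg_left r2 hW'
  linarith

theorem exp_three_le {l : ℝ} (h0 : 0 ≤ l) (h : l ≤ 0.4701) : Real.exp (-(3 * l)) ≤ 1 - 1.55 * l := by
  have h1 := Real.sum_le_exp_of_nonneg (x := 3 * l) (by positivity) 5
  simp only [sum_range_succ, range_zero, sum_empty, Nat.factorial] at h1
  norm_num at h1
  rw [Real.exp_neg, ← one_div, div_le_iff₀ (Real.exp_pos _)]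
  have h2 : 0 ≤ 1 - 1.55 * l := by linarith
  refine le_trans ?_ (mul_le_mul_of_nonneg_left h1 h2)
  have p2 : l ^ 2 ≤ 0.4701 * l := by nlinarith
  have p3 : l ^ 3 ≤ 0.221 * l := by nlinarith
  have p4 : l ^ 4 ≤ 0.1039 * l := by nlinarith
  have p5 : l ^ 5 ≤ 0.04885 * l := by nlinarith
  nlinarith

/-- the linear programme in the presence of an exceptional real zero `l1`; all other zeros lie above `ls` -/
theorem coreB (C : Finset ι) (lam cost : ι → ℝ) {l1 ls : ℝ} (p0 : 0 ≤ l1) (p1 : l1 ≤ 0.4701)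
    (hDH : 0.1495 ≤ 2 * Del ls l1 ∨ (3.6 < ls ∧ Real.exp (-(1.4796 * ls)) ≤ 0.0894 * l1)) (h0 : ∀ χ ∈ C, ls ≤ lam χ)
    (hc1 : ∀ χ ∈ C, ∀ i : ℕ, i ≤ 300 → (i:ℝ) / 100 + 1 / 100 ≤ lam χ →
      cost χ ≤ Real.exp (-(3 * lam χ)) * Ccl i)
    (r2 : ∑ χ ∈ C, sig 0.25 1.12 0.29247 (lam χ) ≤ 0.6812)
    (r3 : ∑ χ ∈ C, sig 1.2 0.82 0.26896 (lam χ) ≤ 1.1449)
    (r4 : ∑ χ ∈ C, sig 2.85 0.62 0.28242 (lam χ) ≤ 3.6773)
    (hd : ∑ χ ∈ C, 1 / Dm (lam χ) ≤ 264.3) :
    1.19 ≤ ls ∧ Real.exp (-(3 * l1)) + 1.6 * Real.exp (-(3 * ls)) + ∑ χ ∈ C, cost χ ≤ 1 - l1 / 30 := by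
  have q1 : 1.19 ≤ ls := by
    by_contra h
    have hDH := hDH.resolve_right (fun hh => by linarith [hh.1])
    have := Del_mono (l := ls) (l' := 1.19) p0 (by linarith) p1
    have := Del1
    linarith
  refine ⟨q1, ?_⟩
  by_cases c1 : ls ≤ 2.1
  · have q2 : 0.3 ≤ l1 := by
      by_contra h
      have hDH := hDH.resolve_right (fun hh => by linarith [hh.1])
      have := Del_mono (l1' := 0.3) p0 c1 (by linarith)
      have := Del2
      linarith
    have b := coreB_aux C lam cost (507 / 1000) (by norm_num) 119 (by norm_num) (by norm_num) sweepB1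
      (fun χ hχ => le_trans (by push_cast; linarith) (h0 χ hχ)) hc1 r2 r3 r4 hd
    have a1 : Real.exp (-((9 / 10 : ℚ) : ℝ)) ≤ ((4066 / 10000 : ℚ) : ℝ) :=
      exp_neg_le_of 8 (by norm_num) (by decide +kernel)
    have a2 : Real.exp (-((357 / 100 : ℚ) : ℝ)) ≤ ((282 / 10000 : ℚ) : ℝ) :=
      exp_neg_le_of 12 (by norm_num) (by decide +kernel)
    push_cast at a1 a2 b
    have b1 : Real.exp (-(3 * l1)) ≤ Real.exp (-(9 / 10)) := Real.exp_le_exp.2 (by linarith)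
    have b2 : Real.exp (-(3 * ls)) ≤ Real.exp (-(357 / 100)) := Real.exp_le_exp.2 (by linarith)
    linarith
  by_cases c2 : ls ≤ 3.6
  · have q2 : 0.14 ≤ l1 := by
      by_contra h
      have hDH := hDH.resolve_right (fun hh => by linarith [hh.1])
      have := Del_mono (l1' := 0.14) p0 c2 (by linarith)
      have := Del3
      linarith
    have b := coreB_aux C lam cost (71 / 1000) (by norm_num) 210 (by norm_num) (by norm_num) sweepB2
      (fun χ hχ => le_trans (by push_cast; linarith) (h0 χ hχ)) hc1 r2 r3 r4 hd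
    have a1 : Real.exp (-((42 / 100 : ℚ) : ℝ)) ≤ ((6571 / 10000 : ℚ) : ℝ) :=
      exp_neg_le_of 8 (by norm_num) (by decide +kernel)
    have a2 : Real.exp (-((357 / 100 : ℚ) : ℝ)) ≤ ((282 / 10000 : ℚ) : ℝ) :=
      exp_neg_le_of 12 (by norm_num) (by decide +kernel)
    push_cast at a1 a2 b
    have b1 : Real.exp (-(3 * l1)) ≤ Real.exp (-(42 / 100)) := Real.exp_le_exp.2 (by linarith)
    have b2 : Real.exp (-(3 * ls)) ≤ Real.exp (-(357 / 100)) := Real.exp_le_exp.2 (by linarith)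
    linarith
  have c3 : 3.6 ≤ ls := by linarith
  have pw : ∀ χ ∈ C, cost χ ≤ 0.0609 * Real.exp (-(1.4796 * ls)) * (1 / Dm (lam χ)) := fun χ hχ =>
    (hc1 χ hχ 300 le_rfl (by have := h0 χ hχ; push_cast; linarith)).trans (tail_le c3 (h0 χ hχ))
  have b := sum_le_sum pw
  rw [← mul_sum] at b
  have e0 := Real.exp_pos (-(1.4796 * ls))
  have b' : ∑ χ ∈ C, cost χ ≤ 16.1 * Real.exp (-(1.4796 * ls)) := by
    refine b.trans ((mul_le_mul_of_nonneg_left hd (by positivity)).trans ?_)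
    nlinarith
  have d5 : Real.exp (-(1.4796 * ls)) ≤ 0.0894 * l1 := by
    rcases hDH with hDH | hDH
    swap
    · exact hDH.2
    have d1 := Del_le (l := ls) (by linarith) p0
    have d2 : Real.exp (0.8 * ls) / ls ^ 2 ≤ Real.exp (0.8 * ls) / 12.96 :=
      div_le_div_of_nonneg_left (Real.exp_pos _).le (by norm_num) (by nlinarith)
    have d3 : 0.1495 ≤ 2 * (l1 * (Real.exp (0.8 * ls) / 12.96)) := by
      have := mul_le_mul_of_nonneg_left d2 p0
      linarith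
    have a1 : Real.exp (-((244656 / 100000 : ℚ) : ℝ)) ≤ ((866 / 10000 : ℚ) : ℝ) :=
      exp_neg_le_of 12 (by norm_num) (by decide +kernel)
    push_cast at a1
    have d4 : Real.exp (-(1.4796 * ls)) * Real.exp (0.8 * ls) ≤ 0.0866 := by
      rw [← Real.exp_add]
      refine le_trans (Real.exp_le_exp.2 (by linarith)) (a1.trans (by norm_num))
    have f1 := mul_le_mul_of_nonneg_left d3 e0.le
    have f2 := mul_le_mul_of_nonneg_left d4 p0
    have f3 : Real.exp (-(1.4796 * ls)) * (2 * (l1 * (Real.exp (0.8 * ls) / 12.96)))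
        = 25 / 162 * (l1 * (Real.exp (-(1.4796 * ls)) * Real.exp (0.8 * ls))) := by ring
    rw [f3] at f1
    linarith
  have d6 : Real.exp (-(3 * ls)) ≤ 0.2 * Real.exp (-(1.4796 * ls)) := by
    have : Real.exp (-(3 * ls)) = Real.exp (-(1.5204 * ls)) * Real.exp (-(1.4796 * ls)) := by
      rw [← Real.exp_add]; congr 1; ring
    rw [this]
    apply mul_le_mul_of_nonneg_right _ e0.le
    rw [Real.exp_neg, ← one_div, div_le_iff₀ (Real.exp_pos _)]
    have := Real.add_one_le_exp (1.5204 * ls)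
    linarith
  have := exp_three_le p0 p1
  linarith

end Pool.Agent.Lib.MP_d48457_nt.N21
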