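import Pool.Agent.Lib.MP_d48457_nt.N21.Hyp

set_option autoImplicit false

namespace Pool.Agent.Lib.MP_d48457_nt.N21

open Finset intervalIntegral

/-- Taylor polynomial of `exp (-x)` -/
noncomputable def Tr (m : ℕ) (x : ℝ) : ℝ := ∑ k ∈ range m, (-x) ^ k / (k.factorial : ℝ)

theorem Tr_deriv (m : ℕ) (x : ℝ) : HasDerivAt (Tr (m + 1)) (-Tr m x) x := by
  induction m with
  | zero =>
    have : Tr 1 = fun _ => (1:ℝ) := by ext y; simp [Tr]
    rw [this]; simpa [Tr] using hasDerivAt_const x (1:ℝ)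
  | succ n ih =>
    have e : Tr (n + 1 + 1) = fun y => Tr (n + 1) y + (-y) ^ (n + 1) / ((n + 1).factorial : ℝ) := by
      ext y; simp only [Tr, sum_range_succ]
    rw [e]
    refine (ih.fun_add ((((hasDerivAt_id' x).fun_neg).fun_pow (n + 1)).div_const _)).congr_deriv ?_
    simp only [Tr, sum_range_succ, Nat.factorial_succ, Nat.add_sub_cancel]
    push_cast
    have : (n.factorial : ℝ) ≠ 0 := by positivity
    field_simp; ring

theorem exp_mul_Tr_deriv (m : ℕ) (x : ℝ) : HasDerivAt (fun x => Real.exp x * Tr (m + 1) x)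
    (Real.exp x * ((-x) ^ m / (m.factorial : ℝ))) x := by
  refine ((Real.hasDerivAt_exp x).fun_mul (Tr_deriv m x)).congr_deriv ?_
  simp only [Tr, sum_range_succ]; ring

theorem Tr_zero (m : ℕ) : Tr (m + 1) 0 = 1 := by
  simp [Tr, sum_range_succ']

theorem Tr_le_exp (n : ℕ) {x : ℝ} (hx : 0 ≤ x) : Tr (2 * n + 2) x ≤ Real.exp (-x) := by
  have := le_of_deriv_nonpos hx (exp_mul_Tr_deriv (2 * n + 1)) (fun y hy => by
    apply mul_nonpos_of_nonneg_of_nonpos (Real.exp_pos _).le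
    apply div_nonpos_of_nonpos_of_nonneg _ (by positivity)
    rw [pow_succ, pow_mul, neg_sq]
    have := hy.1
    have : 0 ≤ (y ^ 2) ^ n * y := by positivity
    linarith)
  rw [Tr_zero, Real.exp_zero, one_mul] at this
  rw [Real.exp_neg, ← one_div, le_div_iff₀ (Real.exp_pos _)]
  linarith

theorem exp_le_Tr (n : ℕ) {x : ℝ} (hx : 0 ≤ x) : Real.exp (-x) ≤ Tr (2 * n + 1) x := by
  have := le_of_deriv_nonpos hx (fun y => (exp_mul_Tr_deriv (2 * n) y).fun_neg) (fun y hy => by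
    have : 0 ≤ Real.exp y * ((-y) ^ (2 * n) / ((2 * n).factorial : ℝ)) := by
      rw [pow_mul, neg_sq]; positivity
    linarith)
  rw [Tr_zero, Real.exp_zero, one_mul] at this
  rw [Real.exp_neg, ← one_div, div_le_iff₀ (Real.exp_pos _)]
  linarith

/-- rational version -/
def Tq (m : ℕ) (x : ℚ) : ℚ := ∑ k ∈ range m, (-x) ^ k / (k.factorial : ℚ)

theorem Tq_cast (m : ℕ) (x : ℚ) : (Tq m x : ℝ) = Tr m x := by
  simp [Tq, Tr]

theorem exp_neg_le_of {x q : ℚ} (n : ℕ) (hx : 0 ≤ x) (h : Tq (2 * n + 1) x ≤ q) :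
    Real.exp (-(x:ℝ)) ≤ q := by
  refine (exp_le_Tr n (by exact_mod_cast hx)).trans ?_
  rw [← Tq_cast]; exact_mod_cast h

theorem le_exp_neg_of {x q : ℚ} (n : ℕ) (hx : 0 ≤ x) (h : q ≤ Tq (2 * n + 2) x) :
    (q:ℝ) ≤ Real.exp (-(x:ℝ)) := by
  refine le_trans ?_ (Tr_le_exp n (by exact_mod_cast hx))
  rw [← Tq_cast]; exact_mod_cast h

theorem exp_le_of {x q : ℚ} (n : ℕ) (hx : 0 ≤ x) (hq : 0 < q) (h : 1 / q ≤ Tq (2 * n + 2) x) :
    Real.exp (x:ℝ) ≤ q := by
  have := le_exp_neg_of n hx h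
  rw [Real.exp_neg] at this
  push_cast at this
  have hq' : (0:ℝ) < q := by exact_mod_cast hq
  rw [one_div] at this
  exact (inv_le_inv₀ hq' (Real.exp_pos _)).1 this

theorem le_exp_of {x q : ℚ} (n : ℕ) (hx : 0 ≤ x) (hq : 0 < q) (h : Tq (2 * n + 1) x ≤ 1 / q) :
    (q:ℝ) ≤ Real.exp (x:ℝ) := by
  have := exp_neg_le_of n hx h
  rw [Real.exp_neg] at this
  push_cast at this
  have hq' : (0:ℝ) < q := by exact_mod_cast hq
  rw [one_div] at this
  exact (inv_le_inv₀ (Real.exp_pos _) hq').1 this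

theorem exp_neg_le_quad {u : ℝ} (hu : 0 ≤ u) : Real.exp (-u) ≤ 1 - u + u ^ 2 / 2 := by
  have := exp_le_Tr 1 hu
  simp [Tr, sum_range_succ, Nat.factorial] at this
  linarith

/-- lower bound for the triangle transform -/
noncomputable def Flow (a c : ℝ) : ℝ :=
  a * (1 / 2 - (c * a) / 6 + (c * a) ^ 2 / 24 - (c * a) ^ 3 / 120 + (c * a) ^ 4 / 720
    - (c * a) ^ 5 / 5040 + (c * a) ^ 6 / 40320 - (c * a) ^ 7 / 362880)

theorem Flow_le {a c : ℝ} (ha : 0 < a) (hc : 0 ≤ c) : Flow a c ≤ Ftri a c := by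
  have h1 : (∫ t in (0:ℝ)..a, (1 - t / a) * Tr 8 (c * t)) ≤ Ftri a c := by
    unfold Ftri
    apply integral_mono_on ha.le (Continuous.intervalIntegrable (by unfold Tr; fun_prop) _ _)
      (Continuous.intervalIntegrable (by fun_prop) _ _)
    intro t ht
    have h1 : 0 ≤ 1 - t / a := by
      have := (div_le_one ha).2 ht.2; linarith
    exact mul_le_mul_of_nonneg_left (Tr_le_exp 3 (mul_nonneg hc ht.1)) h1
  refine le_trans (le_of_eq ?_) h1
  have hW : ∀ t : ℝ, HasDerivAt (fun t : ℝ => (t - c * t ^ 2 / 2 + c ^ 2 * t ^ 3 / 6 - c ^ 3 * t ^ 4 / 24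
      + c ^ 4 * t ^ 5 / 120 - c ^ 5 * t ^ 6 / 720 + c ^ 6 * t ^ 7 / 5040 - c ^ 7 * t ^ 8 / 40320)
      - (t ^ 2 / 2 - c * t ^ 3 / 3 + c ^ 2 * t ^ 4 / 8 - c ^ 3 * t ^ 5 / 30 + c ^ 4 * t ^ 6 / 144
        - c ^ 5 * t ^ 7 / 840 + c ^ 6 * t ^ 8 / 5760 - c ^ 7 * t ^ 9 / 45360) / a)
      ((1 - t / a) * Tr 8 (c * t)) t := by
    intro t
    have p := fun n => hasDerivAt_pow n t
    have q := fun (n : ℕ) (r d : ℝ) => ((p n).const_mul r).div_const d
    refine (((((((((hasDerivAt_id' t).fun_sub (q 2 c 2)).fun_add (q 3 (c ^ 2) 6)).fun_sub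
      (q 4 (c ^ 3) 24)).fun_add (q 5 (c ^ 4) 120)).fun_sub (q 6 (c ^ 5) 720)).fun_add
      (q 7 (c ^ 6) 5040)).fun_sub (q 8 (c ^ 7) 40320)).fun_sub
      (((((((((((p 2).div_const 2).fun_sub (q 3 c 3)).fun_add (q 4 (c ^ 2) 8)).fun_sub
      (q 5 (c ^ 3) 30)).fun_add (q 6 (c ^ 4) 144)).fun_sub (q 7 (c ^ 5) 840)).fun_add
      (q 8 (c ^ 6) 5760)).fun_sub (q 9 (c ^ 7) 45360))).div_const a)).congr_deriv ?_
    simp only [Tr, sum_range_succ, Nat.factorial, range_zero, sum_empty]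
    push_cast
    ring
  rw [integral_eq_sub_of_hasDerivAt (fun t _ => hW t)
    (Continuous.intervalIntegrable (by unfold Tr; fun_prop) _ _)]
  unfold Flow
  field_simp
  ring

theorem int_exp_le {c r : ℝ} (hc : 0 ≤ c) (hr : 0 ≤ r) :
    (∫ s in (0:ℝ)..r, Real.exp (-(c * s))) ≤ r - c * r ^ 2 / 2 + c ^ 2 * r ^ 3 / 6 := by
  have h1 : (∫ s in (0:ℝ)..r, Real.exp (-(c * s))) ≤ ∫ s in (0:ℝ)..r, (1 - c * s + (c * s) ^ 2 / 2) := by
    apply integral_mono_on hr (Continuous.intervalIntegrable (by fun_prop) _ _)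
      (Continuous.intervalIntegrable (by fun_prop) _ _)
    intro t ht
    exact exp_neg_le_quad (mul_nonneg hc ht.1)
  refine h1.trans (le_of_eq ?_)
  have hW : ∀ t : ℝ, HasDerivAt (fun t : ℝ => t - c * t ^ 2 / 2 + c ^ 2 * t ^ 3 / 6)
      (1 - c * t + (c * t) ^ 2 / 2) t := by
    intro t
    refine (((hasDerivAt_id' t).fun_sub (((hasDerivAt_pow 2 t).const_mul c).div_const 2)).fun_add
      (((hasDerivAt_pow 3 t).const_mul (c ^ 2)).div_const 6)).congr_deriv ?_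
    push_cast; ring
  rw [integral_eq_sub_of_hasDerivAt (fun t _ => hW t)
    (Continuous.intervalIntegrable (by fun_prop) _ _)]
  ring

theorem fcl_cont (K l : ℝ) : Continuous (fcl K l) := by
  unfold fcl
  have : Continuous fun r : ℝ => ∫ s in (0:ℝ)..r, Real.exp (-(2 * l * s)) :=
    continuous_iff_continuousAt.2 fun r =>
      (Continuous.integral_hasStrictDerivAt (f := fun s => Real.exp (-(2 * l * s)))
        (by fun_prop) 0 r).hasDerivAt.continuousAt
  exact (by fun_prop : Continuous fun t : ℝ => 2 * Real.exp (-(l * t))).mul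
    (this.comp (by fun_prop))

theorem fcl_zero_le {K l : ℝ} (hK : 0 ≤ K) (hl : 0 ≤ l) :
    fcl K l 0 ≤ 2 * (K - l * K ^ 2 + 2 * l ^ 2 * K ^ 3 / 3) := by
  have := int_exp_le (c := 2 * l) (r := K) (by positivity) hK
  simp only [fcl, mul_zero, neg_zero, Real.exp_zero, mul_one, sub_zero]
  linarith

theorem fcl_int_le {K l : ℝ} (hK : 0 ≤ K) (hl : 0 ≤ l) :
    (∫ t in (0:ℝ)..K, fcl K l t * Real.exp (l * t)) ≤ K ^ 2 - 2 * l * K ^ 3 / 3 + l ^ 2 * K ^ 4 / 3 := by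
  have h1 : (∫ t in (0:ℝ)..K, fcl K l t * Real.exp (l * t)) ≤
      ∫ t in (0:ℝ)..K, 2 * ((K - t) - l * (K - t) ^ 2 + 2 * l ^ 2 * (K - t) ^ 3 / 3) := by
    apply integral_mono_on hK (Continuous.intervalIntegrable ((fcl_cont K l).mul (by fun_prop)) _ _)
      (Continuous.intervalIntegrable (by fun_prop) _ _)
    intro t ht
    have := int_exp_le (c := 2 * l) (r := K - t) (by positivity) (by linarith [ht.2])
    have e : fcl K l t * Real.exp (l * t) = 2 * ∫ s in (0:ℝ)..(K - t), Real.exp (-(2 * l * s)) := by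
      unfold fcl
      have : Real.exp (-(l * t)) * Real.exp (l * t) = 1 := by rw [← Real.exp_add]; simp
      linear_combination (2 * ∫ s in (0:ℝ)..(K - t), Real.exp (-(2 * l * s))) * this
    show fcl K l t * Real.exp (l * t) ≤ _
    rw [e]; linarith
  refine h1.trans (le_of_eq ?_)
  have hW : ∀ t : ℝ, HasDerivAt
      (fun t : ℝ => -(K - t) ^ 2 + 2 * l * (K - t) ^ 3 / 3 - l ^ 2 * (K - t) ^ 4 / 3)
      (2 * ((K - t) - l * (K - t) ^ 2 + 2 * l ^ 2 * (K - t) ^ 3 / 3)) t := by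
    intro t
    have h := (hasDerivAt_id' t).const_sub K
    refine ((((h.fun_pow 2).fun_neg).fun_add (((h.fun_pow 3).const_mul (2 * l)).div_const 3)).fun_sub
      (((h.fun_pow 4).const_mul (l ^ 2)).div_const 3)).congr_deriv ?_
    push_cast; ring
  rw [integral_eq_sub_of_hasDerivAt (fun t _ => hW t)
    (Continuous.intervalIntegrable (by fun_prop) _ _)]
  ring

theorem Dm_closed {l : ℝ} (h : 2 * l - 2.4 ≠ 0) :
    Dm l = (Real.exp ((2 * l - 2.4) * 0.7602) - Real.exp ((2 * l - 2.4) * 0.3421)) / (2 * l - 2.4) := by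
  have hW : ∀ t : ℝ, HasDerivAt (fun t : ℝ => Real.exp ((2 * l - 2.4) * t) / (2 * l - 2.4))
      (Real.exp ((2 * l - 2.4) * t)) t := by
    intro t
    refine ((((hasDerivAt_id' t).const_mul (2 * l - 2.4)).exp).div_const _).congr_deriv ?_
    field_simp
  unfold Dm
  rw [integral_eq_sub_of_hasDerivAt (fun t _ => hW t)
    (Continuous.intervalIntegrable (by fun_prop) _ _)]
  ring

theorem Dm_pos (l : ℝ) : 0 < Dm l := by
  unfold Dm
  exact intervalIntegral_pos_of_pos (Continuous.intervalIntegrable (by fun_prop) _ _)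
    (fun _ => Real.exp_pos _) (by norm_num)

theorem Dm_mono {l l' : ℝ} (h : l ≤ l') : Dm l ≤ Dm l' := by
  unfold Dm
  apply integral_mono_on (by norm_num) (Continuous.intervalIntegrable (by fun_prop) _ _)
      (Continuous.intervalIntegrable (by fun_prop) _ _)
  intro t ht
  apply Real.exp_le_exp.2
  have : (0:ℝ) ≤ t := le_trans (by norm_num) ht.1
  nlinarith

end Pool.Agent.Lib.MP_d48457_nt.N21
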