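import Pool.Agent.Lib.MP_d48457_nt.N21.Tri

set_option autoImplicit false

namespace Pool.Agent.Lib.MP_d48457_nt.N21

open Finset

noncomputable def Dm (l : ℝ) : ℝ := ∫ t in (0.3421:ℝ)..0.7602, Real.exp ((2 * l - 2.4) * t)

noncomputable def Vm : ℝ :=
  (∫ t in (0.3421:ℝ)..0.7602, Real.exp (2.4 * t) * min (t - 0.3421) 0.122) / (0.046 * 0.122 ^ 2)

end Pool.Agent.Lib.MP_d48457_nt.N21
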