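import Pool.Agent.Lib.MP_d48457_nt.N21.Cells

set_option autoImplicit false

namespace Pool.Agent.Lib.MP_d48457_nt.N21

open Finset

/-- Plotkin's inequality -/
theorem plotkin {α β : Type*} [DecidableEq α] (U : Finset α) (wt : α → ℝ) (hw : ∀ p ∈ U, 0 ≤ wt p)
    (hU : ∑ p ∈ U, wt p ≤ 1) (J : Finset β) (S : β → Finset α) (hS : ∀ j ∈ J, S j ⊆ U) (x : ℝ) :
    ∑ j ∈ J, ∑ k ∈ J, ∑ p ∈ symmDiff (S j) (S k), wt p ≤
      2 * (J.card : ℝ) ^ 2 * x ^ 2 + 2 * J.card * (1 - 2 * x) * ∑ j ∈ J, ∑ p ∈ S j, wt p := by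
  set a : β → α → ℝ := fun j p => if p ∈ S j then 1 else 0 with ha
  have e1 : ∀ j ∈ J, ∑ p ∈ S j, wt p = ∑ p ∈ U, wt p * a j p := by
    intro j hj
    simp only [ha, mul_ite, mul_one, mul_zero]
    rw [← sum_filter, filter_mem_eq_inter, inter_eq_right.2 (hS j hj)]
  have e2 : ∀ j ∈ J, ∀ k ∈ J, ∑ p ∈ symmDiff (S j) (S k), wt p
      = ∑ p ∈ U, wt p * (a j p + a k p - 2 * (a j p * a k p)) := by
    intro j hj k hk
    have hsub : symmDiff (S j) (S k) ⊆ U := by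
      intro p hp
      rcases mem_symmDiff.1 hp with h | h
      · exact hS j hj h.1
      · exact hS k hk h.1
    rw [← inter_eq_right.2 hsub, ← filter_mem_eq_inter, sum_filter]
    apply sum_congr rfl
    intro p _
    simp only [ha, mem_symmDiff]
    by_cases h1 : p ∈ S j <;> by_cases h2 : p ∈ S k <;> simp [h1, h2]
    norm_num
  rw [sum_congr rfl (fun j hj => sum_congr rfl (fun k hk => e2 j hj k hk)), sum_congr rfl e1]
  have e3 : ∑ j ∈ J, ∑ k ∈ J, ∑ p ∈ U, wt p * (a j p + a k p - 2 * (a j p * a k p))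
      = ∑ p ∈ U, wt p * (2 * J.card * (∑ j ∈ J, a j p) - 2 * (∑ j ∈ J, a j p) ^ 2) := by
    rw [sum_congr rfl (fun j _ => sum_comm), sum_comm]
    apply sum_congr rfl
    intro p _
    simp only [← mul_sum, sum_sub_distrib, sum_add_distrib, sum_const, nsmul_eq_mul, ← sum_mul]
    ring
  rw [e3, sum_comm]
  simp only [← mul_sum]
  have e4 : ∀ p ∈ U, wt p * (2 * J.card * (∑ j ∈ J, a j p) - 2 * (∑ j ∈ J, a j p) ^ 2) ≤
      2 * (J.card : ℝ) ^ 2 * x ^ 2 * wt p + 2 * J.card * (1 - 2 * x) * (wt p * ∑ j ∈ J, a j p) := by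
    intro p hp
    have := mul_nonneg (hw p hp) (sq_nonneg (J.card * x - ∑ j ∈ J, a j p))
    nlinarith
  refine (sum_le_sum e4).trans ?_
  rw [sum_add_distrib, ← mul_sum, ← mul_sum]
  have : 2 * (J.card : ℝ) ^ 2 * x ^ 2 * ∑ p ∈ U, wt p ≤ 2 * (J.card : ℝ) ^ 2 * x ^ 2 :=
    mul_le_of_le_one_right (by positivity) hU
  linarith

/-- removal of the cardinality restriction from a row -/
theorem row_remove {ι : Type*} (C C2 : Finset ι) (hC : C2 ⊆ C) (F1 F2 : ι → ℝ) (h12 : ∀ χ ∈ C2, F2 χ ≤ F1 χ)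
    (p P R : ℝ) (N0 : ℕ) (hp : p + 1 / 1000 ≤ P) (hR : R < N0 / 1000)
    (h : ∀ A1 A2 : Finset ι, A1 ⊆ C → A2 ⊆ A1 → A2 ⊆ C2 → A1.card ≤ N0 →
      ∑ χ ∈ A1, (F1 χ - p) + ∑ χ ∈ A2, (F2 χ - p) ≤ R) :
    ∑ χ ∈ C, max 0 (F1 χ - P) + ∑ χ ∈ C2, max 0 (F2 χ - P) ≤ R := by
  classical
  set A1 := C.filter (fun χ => P ≤ F1 χ)
  set A2 := C2.filter (fun χ => P ≤ F2 χ)
  have hcard : A1.card ≤ N0 := by
    by_contra hh
    obtain ⟨B, hB, hBc⟩ := exists_subset_card_eq (s := A1) (n := N0) (by omega)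
    have h1 := h B ∅ (hB.trans (filter_subset _ _)) (empty_subset _) (empty_subset _) hBc.le
    have h2 : ∑ χ ∈ B, (1 / 1000 : ℝ) ≤ ∑ χ ∈ B, (F1 χ - p) := sum_le_sum fun χ hχ => by
      have := (mem_filter.1 (hB hχ)).2; linarith
    rw [sum_const, hBc, nsmul_eq_mul] at h2
    rw [sum_empty] at h1
    linarith
  have h1 := h A1 A2 (filter_subset _ _) (fun χ hχ => by
    obtain ⟨a, b⟩ := mem_filter.1 hχ
    exact mem_filter.2 ⟨hC a, b.trans (h12 χ a)⟩) (filter_subset _ _) hcard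
  refine le_trans (add_le_add ?_ ?_) h1
  · rw [sum_filter]
    apply sum_le_sum
    intro χ _
    split_ifs with hh
    · exact max_le (by linarith) (by linarith)
    · exact max_le le_rfl (by linarith)
  · rw [sum_filter]
    apply sum_le_sum
    intro χ _
    split_ifs with hh
    · exact max_le (by linarith) (by linarith)
    · exact max_le le_rfl (by linarith)

/-- the nonnegative trigonometric polynomial `|1 + c u + c u^2 + u^3|^2` -/
theorem poly_nonneg (c : ℝ) (u : ℂ) (hu : ‖u‖ = 1) :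
    0 ≤ (2 + 2 * c ^ 2) + (4 * c + 2 * c ^ 2) * u.re + 4 * c * (u ^ 2).re + 2 * (u ^ 3).re := by
  have h : u.re ^ 2 + u.im ^ 2 = 1 := by
    have := Complex.sq_norm u
    rw [hu, Complex.normSq_apply] at this
    linarith
  have e2 : (u ^ 2).re = 2 * u.re ^ 2 - 1 := by
    rw [pow_two, Complex.mul_re]; linear_combination (-1) * h
  have e3 : (u ^ 3).re = 4 * u.re ^ 3 - 3 * u.re := by
    have : u ^ 3 = u * u * u := by ring
    rw [this]
    simp only [Complex.mul_re, Complex.mul_im]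
    linear_combination (-3 * u.re) * h
  rw [e2, e3]
  have h1 : 0 ≤ 1 + u.re := by nlinarith [sq_nonneg u.im, sq_nonneg (u.re + 1)]
  have : (2 + 2 * c ^ 2) + (4 * c + 2 * c ^ 2) * u.re + 4 * c * (2 * u.re ^ 2 - 1)
      + 2 * (4 * u.re ^ 3 - 3 * u.re) = 2 * (1 + u.re) * (2 * u.re + c - 1) ^ 2 := by ring
  rw [this]; positivity

end Pool.Agent.Lib.MP_d48457_nt.N21
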