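import Mathlib

set_option autoImplicit false

namespace Pool.Agent.Lib.MP_d48457_nt.N21

open Set intervalIntegral

/-- a function with nonpositive derivative everywhere decreases -/
theorem le_of_deriv_nonpos {f f' : ℝ → ℝ} {a b : ℝ} (hab : a ≤ b)
    (hf : ∀ x, HasDerivAt f (f' x) x) (h : ∀ x ∈ Icc a b, f' x ≤ 0) : f b ≤ f a := by
  have hd : Differentiable ℝ f := fun x => (hf x).differentiableAt
  have := antitoneOn_of_deriv_nonpos (convex_Icc a b) hd.continuous.continuousOn
    hd.differentiableOn (fun x hx => by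
      rw [(hf x).deriv]; exact h x (interior_subset hx))
  exact this (left_mem_Icc.2 hab) (right_mem_Icc.2 hab) hab

theorem hd_lin (c t : ℝ) : HasDerivAt (fun t => -(c * t)) (-c) t :=
  ((hasDerivAt_id' t).const_mul c).fun_neg.congr_deriv (by ring)

/-- Polya's criterion -/
theorem polya {φ φ1 φ2 : ℝ → ℝ} {a : ℝ} (ha : 0 ≤ a)
    (h1 : ∀ t, HasDerivAt φ (φ1 t) t) (h2 : ∀ t, HasDerivAt φ1 (φ2 t) t)
    (hc : Continuous φ2) (h0 : φ a = 0) (hs : φ1 a ≤ 0) (hcv : ∀ t ∈ Icc 0 a, 0 ≤ φ2 t) (y : ℝ) :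
    0 ≤ ∫ t in (0:ℝ)..a, φ t * Real.cos (y * t) := by
  have hφc : Continuous φ := continuous_iff_continuousAt.2 fun t => (h1 t).continuousAt
  have hφ1c : Continuous φ1 := continuous_iff_continuousAt.2 fun t => (h2 t).continuousAt
  by_cases hy : y = 0
  · subst hy
    apply integral_nonneg ha
    intro t ht
    have e1 : ∀ s ∈ Icc t a, φ1 s ≤ 0 := by
      intro s hs'
      have := le_of_deriv_nonpos (f := fun x => -φ1 x) (f' := fun x => -φ2 x) hs'.2
        (fun x => (h2 x).neg) (fun x hx => by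
          have := hcv x ⟨le_trans (le_trans ht.1 hs'.1) hx.1, hx.2⟩; linarith)
      linarith
    have := le_of_deriv_nonpos ht.2 h1 e1
    simp only [zero_mul, Real.cos_zero, mul_one]
    linarith
  · have hy2 : 0 < y ^ 2 := by positivity
    have hW : ∀ t, HasDerivAt (fun t => φ t * Real.sin (y * t) / y + φ1 t * (Real.cos (y * t) - 1) / y ^ 2)
        (φ t * Real.cos (y * t) - φ2 t * (1 - Real.cos (y * t)) / y ^ 2) t := by
      intro t
      have hl : HasDerivAt (fun t => y * t) y t := by simpa using (hasDerivAt_id t).const_mul y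
      refine ((((h1 t).fun_mul hl.sin).div_const y).fun_add
        (((h2 t).fun_mul (hl.cos.sub_const 1)).div_const (y ^ 2))).congr_deriv ?_
      field_simp
      ring
    have hI := integral_eq_sub_of_hasDerivAt (a := 0) (b := a) (fun t _ => hW t)
      (Continuous.intervalIntegrable (by fun_prop) _ _)
    rw [integral_sub (Continuous.intervalIntegrable (by fun_prop) _ _)
      (Continuous.intervalIntegrable (by fun_prop) _ _)] at hI
    have hp : 0 ≤ ∫ t in (0:ℝ)..a, φ2 t * (1 - Real.cos (y * t)) / y ^ 2 := by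
      apply integral_nonneg ha
      intro t ht
      have := hcv t ht
      have := Real.cos_le_one (y * t)
      apply div_nonneg (mul_nonneg (by assumption) (by linarith)) hy2.le
    have hq : 0 ≤ φ1 a * (Real.cos (y * a) - 1) / y ^ 2 := by
      have := Real.cos_le_one (y * a)
      apply div_nonneg (mul_nonneg_of_nonpos_of_nonpos hs (by linarith)) hy2.le
    simp only [h0, zero_mul, zero_div, zero_add, mul_zero, Real.sin_zero, Real.cos_zero, sub_self,
      add_zero, sub_zero] at hI
    linarith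

/-- Laplace transform of the triangle at a real point -/
noncomputable def Ftri (a c : ℝ) : ℝ := ∫ t in (0:ℝ)..a, (1 - t / a) * Real.exp (-(c * t))

/-- real part of the Laplace transform of the triangle at `c + i y` -/
noncomputable def Fre (a c y : ℝ) : ℝ :=
  ∫ t in (0:ℝ)..a, (1 - t / a) * Real.exp (-(c * t)) * Real.cos (y * t)

theorem Fre_zero (a c : ℝ) : Fre a c 0 = Ftri a c := by simp [Fre, Ftri]

theorem hd_tri (a c t : ℝ) : HasDerivAt (fun t => (1 - t / a) * Real.exp (-(c * t)))
    ((-(1 / a) - c * (1 - t / a)) * Real.exp (-(c * t))) t := by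
  exact ((((hasDerivAt_id' t).div_const a).const_sub 1).fun_mul (hd_lin c t).exp).congr_deriv (by ring)

theorem hd_tri1 (a c t : ℝ) : HasDerivAt (fun t => (-(1 / a) - c * (1 - t / a)) * Real.exp (-(c * t)))
    ((2 * c / a + c ^ 2 * (1 - t / a)) * Real.exp (-(c * t))) t := by
  exact ((((((hasDerivAt_id' t).div_const a).const_sub 1).const_mul c).const_sub (-(1 / a))).fun_mul
    (hd_lin c t).exp).congr_deriv (by ring)

/-- comparison of two triangle transforms: `κ Re F(-l + i y) ≤ α Re F(c1+iy) + β Re F(c2+iy)` -/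
theorem Fre_pair {a c1 c2 l α β κ : ℝ} (ha : 0 < a) (hc1 : 0 ≤ c1) (hc2 : 0 ≤ c2) (hl : 0 ≤ l)
    (hla : l * a ≤ 2) (hα : 0 ≤ α) (hβ : 0 ≤ β) (hκ : 0 ≤ κ)
    (h : κ * Real.exp (l * a) ≤ α * Real.exp (-(c1 * a)) + β * Real.exp (-(c2 * a))) (y : ℝ) :
    κ * Fre a (-l) y ≤ α * Fre a c1 y + β * Fre a c2 y := by
  have key := polya (a := a) ha.le
    (φ := fun t => α * ((1 - t / a) * Real.exp (-(c1 * t))) + β * ((1 - t / a) * Real.exp (-(c2 * t)))
      - κ * ((1 - t / a) * Real.exp (-(-l * t))))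
    (fun t => (((hd_tri a c1 t).const_mul α).add ((hd_tri a c2 t).const_mul β)).sub
      ((hd_tri a (-l) t).const_mul κ))
    (fun t => (((hd_tri1 a c1 t).const_mul α).add ((hd_tri1 a c2 t).const_mul β)).sub
      ((hd_tri1 a (-l) t).const_mul κ))
    (by fun_prop) (by simp [div_self ha.ne']) (by
      simp only [div_self ha.ne', sub_self, mul_zero, sub_zero, neg_mul, neg_neg]
      have : 0 < 1 / a := by positivity
      nlinarith) (by
      intro t ht
      have h1 : 0 ≤ 1 - t / a := by
        have := (div_le_one ha).2 ht.2; linarith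
      have h2 : 2 * -l / a + (-l) ^ 2 * (1 - t / a) ≤ 0 := by
        have : 2 * -l / a + (-l) ^ 2 * (1 - t / a) = -(l * (2 - l * a + l * t)) / a := by
          field_simp; ring
        rw [this]
        have : 0 ≤ l * t := mul_nonneg hl ht.1
        apply div_nonpos_of_nonpos_of_nonneg _ ha.le
        have : 0 ≤ l * (2 - l * a + l * t) := mul_nonneg hl (by linarith)
        linarith
      have h3 : κ * ((2 * -l / a + (-l) ^ 2 * (1 - t / a)) * Real.exp (-(-l * t))) ≤ 0 :=
        mul_nonpos_of_nonneg_of_nonpos hκ (mul_nonpos_of_nonpos_of_nonneg h2 (Real.exp_pos _).le)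
      have h4 : 0 ≤ α * ((2 * c1 / a + c1 ^ 2 * (1 - t / a)) * Real.exp (-(c1 * t))) := by positivity
      have h5 : 0 ≤ β * ((2 * c2 / a + c2 ^ 2 * (1 - t / a)) * Real.exp (-(c2 * t))) := by positivity
      linarith) y
  have e : (∫ t in (0:ℝ)..a, (α * ((1 - t / a) * Real.exp (-(c1 * t))) + β * ((1 - t / a) * Real.exp (-(c2 * t)))
      - κ * ((1 - t / a) * Real.exp (-(-l * t)))) * Real.cos (y * t))
      = α * Fre a c1 y + β * Fre a c2 y - κ * Fre a (-l) y := by
    unfold Fre
    rw [← integral_const_mul, ← integral_const_mul, ← integral_const_mul,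
      ← integral_add (Continuous.intervalIntegrable (by fun_prop) _ _)
        (Continuous.intervalIntegrable (by fun_prop) _ _),
      ← integral_sub (Continuous.intervalIntegrable (by fun_prop) _ _)
        (Continuous.intervalIntegrable (by fun_prop) _ _)]
    congr 1; ext t; ring
  linarith

theorem Fre_nonneg {a c : ℝ} (ha : 0 < a) (hc : 0 ≤ c) (y : ℝ) : 0 ≤ Fre a c y := by
  have := Fre_pair (c1 := c) (c2 := c) (l := 0) (α := 1) (β := 0) (κ := 0) ha hc hc le_rfl (by simp)
    zero_le_one le_rfl le_rfl (by simp [(Real.exp_pos _).le]) y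
  simpa using this

theorem abs_Fre_sub_le {a c c' : ℝ} (ha : 0 < a) (h : c ≤ c') (y : ℝ) :
    Fre a c y - Fre a c' y ≤ Ftri a c - Ftri a c' := by
  unfold Fre Ftri
  rw [← integral_sub (Continuous.intervalIntegrable (by fun_prop) _ _)
        (Continuous.intervalIntegrable (by fun_prop) _ _),
    ← integral_sub (Continuous.intervalIntegrable (by fun_prop) _ _)
        (Continuous.intervalIntegrable (by fun_prop) _ _)]
  apply integral_mono_on ha.le (Continuous.intervalIntegrable (by fun_prop) _ _)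
        (Continuous.intervalIntegrable (by fun_prop) _ _)
  intro t ht
  have h1 : 0 ≤ 1 - t / a := by
    have := (div_le_one ha).2 ht.2; linarith
  have h2 : Real.exp (-(c' * t)) ≤ Real.exp (-(c * t)) :=
    Real.exp_le_exp.2 (by nlinarith [ht.1])
  have h3 := Real.cos_le_one (y * t)
  have : 0 ≤ (1 - t / a) * (Real.exp (-(c * t)) - Real.exp (-(c' * t))) * (1 - Real.cos (y * t)) :=
    mul_nonneg (mul_nonneg h1 (by linarith)) (by linarith)
  nlinarith

theorem Ftri_anti {a c c' : ℝ} (ha : 0 < a) (h : c ≤ c') : Ftri a c' ≤ Ftri a c := by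
  unfold Ftri
  apply integral_mono_on ha.le (Continuous.intervalIntegrable (by fun_prop) _ _)
        (Continuous.intervalIntegrable (by fun_prop) _ _)
  intro t ht
  have h1 : 0 ≤ 1 - t / a := by
    have := (div_le_one ha).2 ht.2; linarith
  exact mul_le_mul_of_nonneg_left (Real.exp_le_exp.2 (by nlinarith [ht.1])) h1

theorem Ftri_closed {a c : ℝ} (ha : 0 < a) (hc : c ≠ 0) :
    Ftri a c = (c * a - 1 + Real.exp (-(c * a))) / (c ^ 2 * a) := by
  have hW : ∀ t, HasDerivAt (fun t => (-(1 - t / a) / c + 1 / (a * c ^ 2)) * Real.exp (-(c * t)))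
      ((1 - t / a) * Real.exp (-(c * t))) t := by
    intro t
    refine ((((((((hasDerivAt_id' t).div_const a).const_sub 1).fun_neg).div_const c).add_const
      (1 / (a * c ^ 2))).fun_mul (hd_lin c t).exp)).congr_deriv ?_
    field_simp; ring
  unfold Ftri
  rw [integral_eq_sub_of_hasDerivAt (fun t _ => hW t) (Continuous.intervalIntegrable (by fun_prop) _ _)]
  simp only [div_self ha.ne', sub_self, mul_zero, neg_zero, Real.exp_zero, zero_div, sub_zero]
  field_simp; ring

theorem Ftri_zero {a : ℝ} (ha : 0 < a) : Ftri a 0 = a / 2 := by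
  unfold Ftri
  simp only [zero_mul, neg_zero, Real.exp_zero, mul_one]
  rw [integral_sub (by simp) (Continuous.intervalIntegrable (by fun_prop) _ _), integral_div, integral_id]
  simp; field_simp; ring

/-- the model transform -/
noncomputable def G0 (K : ℝ) (z : ℂ) : ℂ := ∫ t in (0:ℝ)..K, Complex.exp (-(z * t))

/-- the cluster test function, an autocorrelation -/
noncomputable def fcl (K l t : ℝ) : ℝ :=
  2 * Real.exp (-(l * t)) * ∫ s in (0:ℝ)..(K - t), Real.exp (-(2 * l * s))

theorem G0_hasDeriv (z : ℂ) (u : ℝ) : HasDerivAt (fun u => G0 u z) (Complex.exp (-(z * u))) u := by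
  unfold G0
  exact (Continuous.integral_hasStrictDerivAt (by fun_prop) 0 u).hasDerivAt

theorem G0_mul (z : ℂ) (u : ℝ) : z * G0 u z = 1 - Complex.exp (-(z * u)) := by
  have hW : ∀ t : ℝ, HasDerivAt (fun t : ℝ => -Complex.exp (-(z * t))) (z * Complex.exp (-(z * t))) t := by
    intro t
    have h0 : HasDerivAt (fun t : ℝ => (t : ℂ)) 1 t := Complex.ofRealCLM.hasDerivAt
    exact (((h0.const_mul z).fun_neg.cexp).fun_neg).congr_deriv (by ring)
  unfold G0
  rw [← integral_const_mul, integral_eq_sub_of_hasDerivAt (fun t _ => hW t)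
    (Continuous.intervalIntegrable (by fun_prop) _ _)]
  simp; ring

/-- `|G0(z)|^2 ≤ Re F_l(z - l)` for `l ≤ Re z` -/
theorem G0_sq_le {K l : ℝ} (hK : 0 ≤ K) (z : ℂ) (hl : l ≤ z.re) :
    ‖G0 K z‖ ^ 2 ≤ ∫ t in (0:ℝ)..K, fcl K l t * Real.exp (-((z.re - l) * t)) * Real.cos (z.im * t) := by
  set ψ : ℝ → ℝ := fun u => ∫ s in (0:ℝ)..(K - u), Real.exp (-(2 * l * s)) with hψ
  have hψd : ∀ u, HasDerivAt ψ (-Real.exp (-(2 * l * (K - u)))) u := by
    intro u
    have h1 : HasDerivAt (fun r => ∫ s in (0:ℝ)..r, Real.exp (-(2 * l * s)))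
        (Real.exp (-(2 * l * (K - u)))) (K - u) :=
      (Continuous.integral_hasStrictDerivAt (by fun_prop) 0 (K - u)).hasDerivAt
    exact (h1.comp u ((hasDerivAt_id' u).const_sub K)).congr_deriv (by ring)
  have hψc : Continuous ψ := continuous_iff_continuousAt.2 fun t => (hψd t).continuousAt
  have hre : ∀ u : ℝ, (Complex.exp (-(z * u))).re = Real.exp (-(z.re * u)) * Real.cos (z.im * u) := by
    intro u
    rw [Complex.exp_re]; simp
  have hY : ∀ u, HasDerivAt (fun u => Real.exp (-(2 * l * (K - u))) * ‖G0 u z‖ ^ 2 + 2 * (ψ u * (G0 u z).re)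
      - 2 * ∫ s in (0:ℝ)..u, ψ s * (Real.exp (-(z.re * s)) * Real.cos (z.im * s)))
      (-(2 * (z.re - l) * Real.exp (-(2 * l * (K - u))) * ‖G0 u z‖ ^ 2)) u := by
    intro u
    have h1 : HasDerivAt (fun u => -(2 * l * (K - u))) (2 * l) u := by
      exact ((((hasDerivAt_id' u).const_sub K).const_mul (2 * l)).fun_neg).congr_deriv (by ring)
    have h2 := (G0_hasDeriv z u).norm_sq
    have h3 : HasDerivAt (fun u => (G0 u z).re) (Complex.exp (-(z * u))).re u :=
      Complex.reCLM.hasFDerivAt.comp_hasDerivAt u (G0_hasDeriv z u)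
    have h4 : HasDerivAt (fun u => ∫ s in (0:ℝ)..u, ψ s * (Real.exp (-(z.re * s)) * Real.cos (z.im * s)))
        (ψ u * (Real.exp (-(z.re * u)) * Real.cos (z.im * u))) u :=
      (Continuous.integral_hasStrictDerivAt (by fun_prop) 0 u).hasDerivAt
    refine (((h1.exp.fun_mul h2).fun_add (((hψd u).fun_mul h3).const_mul 2)).fun_sub
      (h4.const_mul 2)).congr_deriv ?_
    rw [← hre u]
    have e : Complex.exp (-(z * u)) = 1 - z * G0 u z := by rw [G0_mul]; ring
    have e2 : inner ℝ (G0 u z) (Complex.exp (-(z * u))) = (G0 u z).re - z.re * ‖G0 u z‖ ^ 2 := by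
      rw [e, Complex.inner, Complex.sq_norm, Complex.normSq_apply]
      simp; ring
    rw [e2]; ring
  have := le_of_deriv_nonpos hK hY (fun u _ => by
    have : 0 ≤ z.re - l := by linarith
    have : 0 ≤ 2 * (z.re - l) * Real.exp (-(2 * l * (K - u))) * ‖G0 u z‖ ^ 2 := by positivity
    linarith)
  have e0 : G0 0 z = 0 := by simp [G0]
  have e1 : ψ K = 0 := by simp [hψ]
  simp only [sub_self, mul_zero, neg_zero, Real.exp_zero, one_mul, e1, zero_mul, add_zero, e0,
    norm_zero, integral_same, Complex.zero_re] at this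
  have e2 : (∫ t in (0:ℝ)..K, fcl K l t * Real.exp (-((z.re - l) * t)) * Real.cos (z.im * t))
      = 2 * ∫ s in (0:ℝ)..K, ψ s * (Real.exp (-(z.re * s)) * Real.cos (z.im * s)) := by
    rw [← integral_const_mul]
    congr 1; ext t
    have : Real.exp (-(z.re * t)) = Real.exp (-(l * t)) * Real.exp (-((z.re - l) * t)) := by
      rw [← Real.exp_add]; congr 1; ring
    rw [this]; simp only [fcl, hψ]; ring
  rw [e2]; nlinarith

theorem norm_G0_le {K x : ℝ} (hK : 0 ≤ K) (z : ℂ) (hx : x ≤ z.re) :
    ‖G0 K z‖ ≤ ∫ t in (0:ℝ)..K, Real.exp (-(x * t)) := by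
  unfold G0
  refine (norm_integral_le_integral_norm hK).trans ?_
  apply integral_mono_on hK (Continuous.intervalIntegrable (by fun_prop) _ _)
        (Continuous.intervalIntegrable (by fun_prop) _ _)
  intro t ht
  rw [Complex.norm_exp]
  apply Real.exp_le_exp.2
  simp
  nlinarith [ht.1]

end Pool.Agent.Lib.MP_d48457_nt.N21
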